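import Pool.Agent.Lib.UD.Blue

noncomputable section

open Finset
open scoped BigOperators

namespace Pool.Agent.Lib.UD

open Pool.Agent.Lib.MP_3a84e0_co Pool.Agent.Lib.U4

namespace BI1

lemma ind_nonneg (P : Prop) : 0 ≤ ind P := by unfold ind; split_ifs <;> norm_num

lemma ind_and (P Q : Prop) : ind (P ∧ Q) = ind P * ind Q := by
  by_cases h : P <;> by_cases k : Q <;> simp [ind, h, k]

lemma ind_mono {P Q : Prop} (h : P → Q) : ind P ≤ ind Q := by
  by_cases k : P
  · simp [ind, k, h k]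
  · rw [ind, if_neg k]; exact ind_nonneg Q

variable {V : Type} [AddCommGroup V] [Fintype V]

lemma sub_corr (H K : AddSubgroup V) :
    (𝔼 a, ind (a ∈ H)) * (𝔼 a, ind (a ∈ K)) ≤ 𝔼 a, ind (a ∈ H ∧ a ∈ K) := by
  have e1 : (𝔼 a, ind (a ∈ H)) * (𝔼 a, ind (a ∈ K)) =
      𝔼 t, 𝔼 a, ind (a ∈ H ∧ a + t ∈ K) := by
    rw [expect_comm, expect_mul]
    refine expect_congr rfl fun a _ => ?_
    rw [← expect_shift' (fun b => ind (b ∈ K)) a, mul_expect]
    simp only [ind_and]
  rw [e1]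
  refine expect_le univ_nonempty fun t _ => ?_
  by_cases h : ∃ b, b ∈ H ∧ b + t ∈ K
  · obtain ⟨b, h1, h2⟩ := h
    rw [← expect_shift (fun a => ind (a ∈ H ∧ a + t ∈ K)) b]
    refine expect_le_expect fun a _ => ind_mono fun ⟨k1, k2⟩ => ⟨?_, ?_⟩
    · simpa using H.sub_mem k1 h1
    · have := K.sub_mem k2 h2
      rwa [add_assoc, add_sub_cancel_right] at this
  · push Not at h
    refine (expect_le univ_nonempty fun a _ => ?_).trans
      (expect_nonneg fun a _ => ind_nonneg _)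
    rw [ind, if_neg fun k => h a k.1 k.2]

/-- All coordinate slices are subgroups. -/
def Sl {d : ℕ} (Z : (Fin d → V) → Prop) : Prop :=
  ∀ (y : Fin d → V) (i : Fin d), ∃ H : AddSubgroup V, ∀ v, v ∈ H ↔ Z (Function.update y i v)

lemma corr (d : ℕ) : ∀ (Z Z' : (Fin d → V) → Prop), Sl Z → Sl Z' →
    (𝔼 y, ind (Z y)) * (𝔼 y, ind (Z' y)) ≤ 𝔼 y, ind (Z y ∧ Z' y) := by
  induction d with
  | zero =>
    intro Z Z' _ _
    simp [ind_and]
  | succ d ih =>
    intro Z Z' h h'
    have s : ∀ {Z : (Fin (d + 1) → V) → Prop}, Sl Z → ∀ a : V,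
        Sl fun y : Fin d → V => Z (Fin.cons a y) := fun {Z} h a y i => by
      obtain ⟨H, k⟩ := h (Fin.cons a y) i.succ
      exact ⟨H, fun v => by rw [k, ← Fin.cons_update]⟩
    have f : ∀ {Z : (Fin (d + 1) → V) → Prop}, Sl Z → ∀ y : Fin d → V,
        ∃ H : AddSubgroup V, ∀ v, v ∈ H ↔ Z (Fin.cons v y) := fun {Z} h y => by
      obtain ⟨H, k⟩ := h (Fin.cons 0 y) 0
      exact ⟨H, fun v => by rw [k, Fin.update_cons_zero]⟩
    rw [expect_cons, expect_cons, expect_cons]
    calc (𝔼 a, 𝔼 y : Fin d → V, ind (Z (Fin.cons a y))) *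
          (𝔼 a, 𝔼 y : Fin d → V, ind (Z' (Fin.cons a y)))
        = 𝔼 a, 𝔼 b, (𝔼 y : Fin d → V, ind (Z (Fin.cons a y))) *
          (𝔼 y : Fin d → V, ind (Z' (Fin.cons b y))) := by
          rw [expect_mul_expect]
      _ ≤ 𝔼 a, 𝔼 b, 𝔼 y : Fin d → V, ind (Z (Fin.cons a y) ∧ Z' (Fin.cons b y)) :=
          expect_le_expect fun a _ => expect_le_expect fun b _ => ih _ _ (s h a) (s h' b)
      _ = 𝔼 y : Fin d → V, (𝔼 a, ind (Z (Fin.cons a y))) * (𝔼 b, ind (Z' (Fin.cons b y))) := by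
          simp only [expect_mul_expect, ind_and]
          exact (expect_congr rfl fun a _ => expect_comm _ _ _).trans (expect_comm _ _ _)
      _ ≤ 𝔼 y : Fin d → V, 𝔼 a, ind (Z (Fin.cons a y) ∧ Z' (Fin.cons a y)) := by
          refine expect_le_expect fun y _ => ?_
          obtain ⟨H, k⟩ := f h y
          obtain ⟨K, k'⟩ := f h' y
          simpa only [k, k'] using sub_corr H K
      _ = _ := expect_comm _ _ _

variable {p : ℕ} [Fact p.Prime] [Module (ZMod p) V]

omit [Module (ZMod p) V] in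
lemma lin (l : V → ZMod p) (hl : ∀ a b, l (a + b) = l a + l b) :
    𝔼 u, ec (l u) = (ind (∀ u, l u = 0) : ℝ) := by
  by_cases h : ∀ u, l u = 0
  · simp [h, ind]
  · rw [ind, if_neg h, Complex.ofReal_zero]
    push Not at h
    obtain ⟨t, ht⟩ := h
    have := expect_shift (fun x => ec (l x)) t
    simp only [hl, ec_add, ← expect_mul] at this
    by_contra k
    exact ht (ZMod.injective_stdAddChar ((mul_eq_left₀ k).1 this |>.trans
      (AddChar.map_zero_eq_one _).symm))

lemma avg (d : ℕ) (M : Ml p (d + 1) V) : 𝔼 h : Fin (d + 1) → V, ec (M h) =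
    ((𝔼 y : Fin d → V, ind (∀ u, M (Fin.cons u y) = 0) : ℝ) : ℂ) := by
  rw [expect_cons, expect_comm, Complex.ofReal_expect]
  exact expect_congr rfl fun y _ => lin (fun u => M (Fin.cons u y)) fun a b => M.cons_add y a b

lemma eq_ind (d : ℕ) (M : Ml p (d + 1) V) :
    bias M = 𝔼 y : Fin d → V, ind (∀ u, M (Fin.cons u y) = 0) := by
  rw [bias, avg, Complex.norm_real, Real.norm_of_nonneg (expect_nonneg fun _ _ => ind_nonneg _)]

lemma eq_ec (d : ℕ) (M : Ml p (d + 1) V) :
    (bias M : ℂ) = 𝔼 h : Fin (d + 1) → V, ec (M h) := by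
  rw [avg, eq_ind]

lemma neg (d : ℕ) (M : Ml p d V) : bias (-M) = bias M := by
  simp only [bias, neg_apply, ec_neg]
  rw [← conj_expect, RCLike.norm_conj]

omit [Fintype V] in
lemma sl (d : ℕ) (M : Ml p (d + 1) V) : Sl fun y : Fin d → V => ∀ u, M (Fin.cons u y) = 0 :=
  fun y i => ⟨
    { carrier := {v | ∀ u, M (Fin.cons u (Function.update y i v)) = 0}
      zero_mem' := fun u => by rw [Fin.cons_update]; exact M.map_update_zero _ _
      add_mem' := fun {a b} ha hb u => by
        have h1 := ha u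
        have h2 := hb u
        rw [Fin.cons_update] at h1 h2 ⊢
        rw [M.map_update_add, h1, h2, add_zero]
      neg_mem' := fun {a} ha u => by
        have h1 := ha u
        rw [Fin.cons_update] at h1 ⊢
        rw [M.map_update_neg, h1, neg_zero] }, fun _ => Iff.rfl⟩

lemma add (d : ℕ) (M N : Ml p (d + 1) V) : bias M * bias N ≤ bias (M + N) := by
  rw [eq_ind, eq_ind, eq_ind]
  refine (corr d _ _ (sl d M) (sl d N)).trans (expect_le_expect fun y _ => ind_mono ?_)
  intro ⟨h1, h2⟩ u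
  rw [add_apply, h1, h2, add_zero]

end BI1

open BI1 in
theorem stBI1 : St_BI1 := by
  intro p _ V _ _ _
  refine ⟨fun _ _ => norm_nonneg _, fun _ M => norm_expect_le_one fun _ => (norm_ec _).le,
    neg, fun d => by simp [bias], eq_ind, eq_ec, fun _ _ _ _ => rfl, fun d M => ?_, add,
    fun d M N => ?_⟩
  · apply Complex.ofReal_injective
    rw [eq_ec, expect_cons, Complex.ofReal_expect]
    exact expect_congr rfl fun v _ => (eq_ec d (cu M v)).symm
  · rw [sub_eq_add_neg, ← neg _ N]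
    exact add d M (-N)

end Pool.Agent.Lib.UD
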