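import Pool.Agent.Lib.U4.BlueU

/-!
Blueprint: reduction of the inverse theorem for all Gowers norms to the stability statement `ADc`,
for an abstract class of rates.  Proofs: `/team-store/ud_PLAN.md`.
-/

noncomputable section

open Finset
open scoped BigOperators

namespace Pool.Agent.Lib.UD

open Pool.Agent.Lib.MP_3a84e0_co Pool.Agent.Lib.U4

/-- A class of rates closed under composition and products. -/
structure RC where
  A : (ℝ → ℝ) → Prop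
  pos : ∀ g, A g → ∀ ε, 0 < ε → ε ≤ 1 → 0 < g ε ∧ g ε ≤ 1
  pow : ∀ n : ℕ, A fun ε => (ε / 2) ^ n
  comp : ∀ g h, A g → A h → A fun ε => g (h ε)
  mul : ∀ g h, A g → A h → A fun ε => g ε * h ε

/-- `RM` with a rate from the class. -/
def RMc (R : RC) (p d : ℕ) [Fact p.Prime] : Prop := ∃ g, R.A g ∧ ∀ {G V : Type} [AddCommGroup G]
  [Fintype G] [Module (ZMod p) G] [AddCommGroup V] [Module (ZMod p) V] [Fintype V]
  (φ : G → Ml p d V) (A : Set G) (ε : ℝ), 0 < ε →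
  ε ≤ 𝔼 x, 𝔼 y, 𝔼 t, in4 A x y t * bias (dq φ x y t) →
  ∃ (T : G →ₗ[ZMod p] Ml p d V) (B0 : Ml p d V),
    g ε ≤ 𝔼 x, ind (x ∈ A) * bias (φ x - T x - B0)

/-- `INV` with a rate from the class. -/
def INVc (R : RC) (p k : ℕ) [Fact p.Prime] : Prop := ∃ g, R.A g ∧ ∀ {V : Type} [AddCommGroup V]
  [Module (ZMod p) V] [Fintype V] (f : V → ℂ) (δ : ℝ), 0 < δ → (∀ x, ‖f x‖ ≤ 1) → δ ≤ gw k f →
  ∃ ψ ∈ (Van (k + 1) : Submodule (ZMod p) (V → ZMod p)), g δ ≤ ‖𝔼 x, f x * ec (ψ x)‖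

/-- Stability of approximate homomorphisms into `d`-linear forms under analytic rank. -/
def ADc (R : RC) (p d : ℕ) [Fact p.Prime] : Prop := ∃ g, R.A g ∧ ∀ {G V : Type} [AddCommGroup G]
  [Fintype G] [Module (ZMod p) G] [AddCommGroup V] [Module (ZMod p) V] [Fintype V]
  (φ : G → Ml p d V) (β : ℝ), 0 < β → β ≤ 1 → (∀ x y, β ≤ bias (df φ x y)) →
  ∃ T : G →+ Ml p d V, 3 / 4 ≤ 𝔼 x, ind (g β ≤ bias (φ x - T x))

/-- The polynomial rates. -/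
def PolyA (g : ℝ → ℝ) : Prop :=
  (∀ ε, 0 < ε → ε ≤ 1 → g ε ≤ 1) ∧ ∃ C : ℕ, ∀ ε, 0 < ε → ε ≤ 1 → (ε / 2) ^ C ≤ g ε

/-- Polynomial rates form a class; conversions. -/
def St_POLY : Prop := (∃ R : RC, R.A = PolyA) ∧
  (∀ (R : RC) (p d : ℕ) [Fact p.Prime], RM p d → RMc R p d) ∧
  (∀ (R : RC) (p k : ℕ) [Fact p.Prime], INV p k → INVc R p k) ∧
  (∀ (R : RC) (p k : ℕ) [Fact p.Prime], R.A = PolyA → INVc R p k → INV p k)

def St_STEPC : Prop := ∀ (R : RC) (p : ℕ) [Fact p.Prime], Quad p → Repl p → SymD p → Integ p →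
  ∀ e : ℕ, e + 2 < p → INVc R p (e + 1) → RMc R p (e + 1) → INVc R p (e + 2)

/-- Fixing the first variable. -/
def cu {p d : ℕ} [Fact p.Prime] {V : Type} [AddCommGroup V] [Module (ZMod p) V]
    (M : Ml p (d + 1) V) : V →ₗ[ZMod p] Ml p d V :=
  MultilinearMap.curryLeft (M := fun _ : Fin (d + 1) => V) M

/-- Block BI1. -/
structure BiA (p : ℕ) [Fact p.Prime] (V : Type) [AddCommGroup V] [Module (ZMod p) V]
    [Fintype V] : Prop where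
  nonneg : ∀ (d : ℕ) (M : Ml p d V), 0 ≤ bias M
  le_one : ∀ (d : ℕ) (M : Ml p d V), bias M ≤ 1
  neg : ∀ (d : ℕ) (M : Ml p d V), bias (-M) = bias M
  zero : ∀ d : ℕ, bias (0 : Ml p d V) = 1
  eq_ind : ∀ (d : ℕ) (M : Ml p (d + 1) V),
    bias M = 𝔼 y : Fin d → V, ind (∀ u, M (Fin.cons u y) = 0)
  eq_ec : ∀ (d : ℕ) (M : Ml p (d + 1) V), (bias M : ℂ) = 𝔼 h : Fin (d + 1) → V, ec (M h)
  cu_apply : ∀ (d : ℕ) (M : Ml p (d + 1) V) (v : V) (h : Fin d → V), cu M v h = M (Fin.cons v h)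
  eq_cu : ∀ (d : ℕ) (M : Ml p (d + 2) V), bias M = 𝔼 v, bias (cu M v)
  add : ∀ (d : ℕ) (M N : Ml p (d + 1) V), bias M * bias N ≤ bias (M + N)
  sub : ∀ (d : ℕ) (M N : Ml p (d + 1) V), bias M * bias N ≤ bias (M - N)

/-- `BiA` for all finite spaces. -/
def BA (p : ℕ) [Fact p.Prime] : Prop := ∀ (V : Type) [AddCommGroup V] [Module (ZMod p) V]
  [Fintype V], BiA p V

def St_BI1 : Prop := ∀ (p : ℕ) [Fact p.Prime], BA p

/-- Block BI2: linear families of forms. -/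
structure BiB (p : ℕ) [Fact p.Prime] : Prop where
  comp : ∀ {G V W : Type} [AddCommGroup G] [Module (ZMod p) G] [Fintype G] [AddCommGroup V]
    [Module (ZMod p) V] [Fintype V] [AddCommGroup W] [Module (ZMod p) W] [Fintype W] (d : ℕ)
    (M : Ml p (d + 2) W) (f : G →ₗ[ZMod p] W) (g : V →ₗ[ZMod p] W),
    bias M ≤ 𝔼 x, bias ((cu M (f x)).compLinearMap fun _ => g : Ml p (d + 1) V)
  lift : ∀ {G V : Type} [AddCommGroup G] [Module (ZMod p) G] [Fintype G] [AddCommGroup V]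
    [Module (ZMod p) V] [Fintype V] (d : ℕ),
    ∃ e : (G →ₗ[ZMod p] Ml p (d + 1) V) →ₗ[ZMod p] Ml p (d + 2) (G × V),
      (∀ L, bias (e L) = 𝔼 x, bias (L x)) ∧
      ∀ L x, ((cu (e L) (x, 0)).compLinearMap fun _ => LinearMap.inr (ZMod p) G V :
        Ml p (d + 1) V) = L x
  aff : ∀ {G V : Type} [AddCommGroup G] [Module (ZMod p) G] [Fintype G] [AddCommGroup V]
    [Module (ZMod p) V] [Fintype V] (d : ℕ) (L : G →ₗ[ZMod p] Ml p (d + 1) V)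
    (c : Ml p (d + 1) V), 𝔼 x, bias (L x + c) ≤ 𝔼 x, bias (L x)
  coll : ∀ {G V : Type} [AddCommGroup G] [Module (ZMod p) G] [Fintype G] [AddCommGroup V]
    [Module (ZMod p) V] [Fintype V] (d : ℕ) (L : G →ₗ[ZMod p] Ml p (d + 1) V) (S : Set G),
    (𝔼 x, ind (x ∈ S)) ^ 2 * 𝔼 x, bias (L x) ≤
      𝔼 x, 𝔼 x', ind (x ∈ S ∧ x' ∈ S) * bias (L x - L x')

def St_BI2 : Prop := ∀ (p : ℕ) [Fact p.Prime], BA p → BiB p

/-- Weighted Gowers-Cauchy-Schwarz. -/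
def GcsW (p : ℕ) [Fact p.Prime] : Prop := ∀ {G V : Type} [AddCommGroup G] [Fintype G]
  [AddCommGroup V] [Module (ZMod p) V] [Fintype V] (d : ℕ) (g : G → Ml p (d + 1) V) (B : Set G),
  (𝔼 x, 𝔼 y, 𝔼 t, ind (x ∈ B) * bias (dq g x y t)) ^ 4 ≤
    𝔼 x, 𝔼 y, 𝔼 t, in4 B x y t * bias (dq g x y t)

def St_GCSW : Prop := ∀ (p : ℕ) [Fact p.Prime], BA p → GcsW p

/-- Few affine families explain almost all weighted quadruples. -/
def LabW (R : RC) (p d : ℕ) [Fact p.Prime] : Prop := ∃ r, R.A r ∧ ∀ {G V : Type}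
  [AddCommGroup G] [Fintype G] [Module (ZMod p) G] [AddCommGroup V] [Module (ZMod p) V]
  [Fintype V] (g : G → Ml p d V) (γ : ℝ), 0 < γ → γ ≤ 1 →
  ∃ (lab : G → (G →ₗ[ZMod p] Ml p d V) × Ml p d V)
    (s : Finset ((G →ₗ[ZMod p] Ml p d V) × Ml p d V)),
    (∀ x, lab x ∈ s) ∧ (s.card : ℝ) * r γ ≤ 1 ∧
    𝔼 x, 𝔼 y, 𝔼 t, ind (bias (g x - (lab x).1 x - (lab x).2) < r γ) * bias (dq g x y t) ≤ γ

def St_LABW : Prop := ∀ (R : RC) (p d : ℕ) [Fact p.Prime], BA p → GcsW p → RMc R p (d + 1) →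
  LabW R p (d + 1)

/-- A subspace on which the chosen affine families are almost always jointly valid. -/
def SampleW (R : RC) (p d : ℕ) [Fact p.Prime] : Prop := ∃ r, R.A r ∧ ∀ {G V : Type}
  [AddCommGroup G] [Fintype G] [Module (ZMod p) G] [AddCommGroup V] [Module (ZMod p) V]
  [Fintype V] (φ : G → Ml p (d + 2) V) (A : Set G) (ε : ℝ), 0 < ε →
  ε ≤ 𝔼 x, 𝔼 y, 𝔼 t, in4 A x y t * bias (dq φ x y t) →
  ∃ (K : Submodule (ZMod p) V) (l : V → G →ₗ[ZMod p] Ml p (d + 1) V) (c : V → Ml p (d + 1) V),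
    ε / 2 ≤ 𝔼 v, ind (v ∈ K) ∧
    𝔼 v, 𝔼 v', ind (v ∈ K ∧ v' ∈ K ∧ 𝔼 x, ind (x ∈ A ∧ r ε ≤ bias (cu (φ x) v - l v x - c v) ∧
      r ε ≤ bias (cu (φ x) v' - l v' x - c v') ∧
      r ε ≤ bias (cu (φ x) (v + v') - l (v + v') x - c (v + v'))) < r ε) ≤
      (𝔼 v, ind (v ∈ K)) ^ 2 / 10

def St_SAMPLEW : Prop := ∀ (R : RC) (p d : ℕ) [Fact p.Prime], BA p → Atom → LabW R p (d + 1) →
  SampleW R p d

/-- The ninety-percent version of `ADc`. -/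
def BlrW (R : RC) (p d : ℕ) [Fact p.Prime] : Prop := ∃ r, R.A r ∧ ∀ {G V : Type} [AddCommGroup G]
  [Fintype G] [Module (ZMod p) G] [AddCommGroup V] [Module (ZMod p) V] [Fintype V]
  (φ : G → Ml p d V) (β : ℝ), 0 < β → β ≤ 1 → 𝔼 x, 𝔼 y, ind (bias (df φ x y) < β) ≤ 1 / 10 →
  ∃ T : G →+ Ml p d V, 𝔼 x, ind (bias (φ x - T x) < r β) ≤ 1 / 2

def St_BLRW : Prop := ∀ (R : RC) (p d : ℕ) [Fact p.Prime], BA p → ADc R p (d + 1) →
  BlrW R p (d + 1)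

def St_RMW : Prop := ∀ (R : RC) (p d : ℕ) [Fact p.Prime], BA p → BiB p → LinA p →
  BlrW R p (d + 2) → SampleW R p d → RMc R p (d + 2)

end Pool.Agent.Lib.UD
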