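import Pool.Agent.Lib.UD.BI1

noncomputable section

open Finset ComplexConjugate
open scoped BigOperators

namespace Pool.Agent.Lib.UD

open Pool.Agent.Lib.MP_3a84e0_co Pool.Agent.Lib.U4

namespace BI2

open BI1

section pull

variable {G W : Type} [AddCommGroup G] [Fintype G] [AddCommGroup W] [Fintype W]

lemma pull (H : AddSubgroup W) (f : G →+ W) : 𝔼 w, ind (w ∈ H) ≤ 𝔼 x, ind (f x ∈ H) := by
  have e : 𝔼 w, ind (w ∈ H) = 𝔼 w, 𝔼 x, ind (w + f x ∈ H) := by
    rw [expect_comm]
    simp only [expect_shift (fun w => ind (w ∈ H)), Fintype.expect_const]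
  rw [e]
  refine expect_le univ_nonempty fun w _ => ?_
  by_cases h : ∃ b, w + f b ∈ H
  · obtain ⟨b, h⟩ := h
    rw [← expect_shift (fun x => ind (w + f x ∈ H)) b]
    refine expect_le_expect fun a _ => ind_mono fun k => ?_
    have := H.sub_mem k h
    rwa [map_add, add_sub_add_left_eq_sub, add_sub_cancel_right] at this
  · push Not at h
    refine (expect_le univ_nonempty fun a _ => ?_).trans (expect_nonneg fun a _ => ind_nonneg _)
    rw [ind, if_neg (h a)]

lemma pulls (f : G →+ W) (d : ℕ) : ∀ Z : (Fin d → W) → Prop, Sl Z →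
    𝔼 y, ind (Z y) ≤ 𝔼 y : Fin d → G, ind (Z (f ∘ y)) := by
  induction d with
  | zero =>
    intro Z _
    simp only [univ_unique, expect_singleton]
    exact le_of_eq (by congr 2; exact Subsingleton.elim _ _)
  | succ d ih =>
    intro Z h
    rw [expect_cons, expect_cons]
    calc 𝔼 a, 𝔼 y : Fin d → W, ind (Z (Fin.cons a y))
        ≤ 𝔼 a, 𝔼 y : Fin d → G, ind (Z (Fin.cons a (f ∘ y))) := by
          refine expect_le_expect fun a _ => ih (fun y => Z (Fin.cons a y)) fun y i => ?_
          obtain ⟨H, k⟩ := h (Fin.cons a y) i.succ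
          exact ⟨H, fun v => by rw [k, ← Fin.cons_update]⟩
      _ ≤ _ := by
          rw [expect_comm]
          refine le_of_le_of_eq (expect_le_expect fun y _ => ?_) (expect_comm _ _ _)
          obtain ⟨H, k⟩ := h (Fin.cons 0 (f ∘ y)) 0
          simp only [Fin.update_cons_zero] at k
          simpa only [k, Fin.comp_cons] using pull H f

end pull

variable {p : ℕ} [Fact p.Prime] {G V W : Type} [AddCommGroup G] [Module (ZMod p) G] [Fintype G]
  [AddCommGroup V] [Module (ZMod p) V] [Fintype V] [AddCommGroup W] [Module (ZMod p) W] [Fintype W]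

lemma comp (hA : BA p) (d : ℕ) (M : Ml p (d + 2) W) (f : G →ₗ[ZMod p] W) (g : V →ₗ[ZMod p] W) :
    bias M ≤ 𝔼 x, bias ((cu M (f x)).compLinearMap fun _ => g : Ml p (d + 1) V) := by
  rw [(hA W).eq_cu]
  simp only [eq_ind]
  refine (expect_le_expect fun w _ => pulls g.toAddMonoidHom d _ (sl d (cu M w))).trans ?_
  rw [expect_comm]
  refine le_of_le_of_eq (expect_le_expect fun y _ => ?_) (expect_comm _ _ _)
  let H : AddSubgroup W :=
    { carrier := {w | ∀ u, cu M w (Fin.cons u (g.toAddMonoidHom ∘ y)) = 0}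
      zero_mem' := fun u => by simp
      add_mem' := fun {a b} ha hb u => by
        rw [map_add, add_apply, ha u, hb u, add_zero]
      neg_mem' := fun {a} ha u => by rw [map_neg, neg_apply, ha u, neg_zero] }
  refine (pull H f.toAddMonoidHom).trans (expect_le_expect fun x _ => ind_mono fun h u => ?_)
  rw [MultilinearMap.compLinearMap_apply, ← h (g u)]
  congr 1
  exact Fin.comp_cons g u y

/-- A linear family of forms as one form. -/
def unc (d : ℕ) : (G →ₗ[ZMod p] Ml p (d + 1) V) →ₗ[ZMod p] Ml p (d + 2) (G × V) where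
  toFun L := LinearMap.uncurryLeft (M := fun _ : Fin (d + 2) => G × V)
    (MultilinearMap.compLinearMapₗ (fun _ => LinearMap.snd (ZMod p) G V) ∘ₗ L ∘ₗ
      LinearMap.fst (ZMod p) G V)
  map_add' _ _ := rfl
  map_smul' _ _ := rfl

omit [Fintype G] [Fintype V] in
lemma cu_unc (d : ℕ) (L : G →ₗ[ZMod p] Ml p (d + 1) V) (z : G × V) :
    cu (unc d L) z = (L z.1).compLinearMap fun _ => LinearMap.snd (ZMod p) G V := by
  ext h
  rfl

lemma bias_snd (d : ℕ) (N : Ml p d V) :
    bias (N.compLinearMap fun _ => LinearMap.snd (ZMod p) G V : Ml p d (G × V)) = bias N := by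
  unfold bias
  congr 1
  refine (Fintype.expect_equiv (Equiv.arrowProdEquivProdArrow (Fin d) (fun _ => G) fun _ => V) _
    (fun z => ec (N z.2)) fun _ => rfl).trans ?_
  rw [expect_prod]
  simp

lemma fam (d : ℕ) (L : G →ₗ[ZMod p] Ml p (d + 1) V) :
    𝔼 x, bias (L x) = 𝔼 h : Fin (d + 1) → V, ind (∀ x, L x h = 0) := by
  apply Complex.ofReal_injective
  simp only [Complex.ofReal_expect, eq_ec]
  rw [expect_comm]
  exact expect_congr rfl fun h _ => lin (fun x => L x h) fun a b => by simp

lemma aff (d : ℕ) (L : G →ₗ[ZMod p] Ml p (d + 1) V) (c : Ml p (d + 1) V) :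
    𝔼 x, bias (L x + c) ≤ 𝔼 x, bias (L x) := by
  have e : ((𝔼 x, bias (L x + c) : ℝ) : ℂ) =
      𝔼 h : Fin (d + 1) → V, (ind (∀ x, L x h = 0) : ℝ) * ec (c h) := by
    simp only [Complex.ofReal_expect, eq_ec, add_apply, ec_add]
    rw [expect_comm]
    refine expect_congr rfl fun h _ => ?_
    rw [← expect_mul, lin (fun x => L x h) fun a b => by simp]
  refine (Real.le_norm_self _).trans ?_
  rw [← Complex.norm_real, e, fam]
  refine (RCLike.norm_expect_le (K := ℂ)).trans (expect_le_expect fun h _ => ?_)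
  rw [norm_mul, norm_ec, mul_one, Complex.norm_real, Real.norm_of_nonneg (ind_nonneg _)]

lemma coll (d : ℕ) (L : G →ₗ[ZMod p] Ml p (d + 1) V) (S : Set G) :
    (𝔼 x, ind (x ∈ S)) ^ 2 * 𝔼 x, bias (L x) ≤
      𝔼 x, 𝔼 x', ind (x ∈ S ∧ x' ∈ S) * bias (L x - L x') := by
  have e : 𝔼 x, 𝔼 x', ind (x ∈ S ∧ x' ∈ S) * bias (L x - L x') =
      𝔼 h : Fin (d + 1) → V, ‖𝔼 x, (ind (x ∈ S) : ℂ) * ec (L x h)‖ ^ 2 := by
    apply Complex.ofReal_injective
    simp only [Complex.ofReal_expect, Complex.ofReal_mul, eq_ec, sub_apply, ec_sub,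
      mul_expect, Complex.ofReal_pow, ← Complex.mul_conj', conj_expect, expect_mul, ind_and,
      map_mul, Complex.conj_ofReal]
    rw [expect_comm]
    refine Eq.trans (expect_congr rfl fun x _ => ?_) (expect_comm _ _ _)
    refine Eq.trans (expect_congr rfl fun x' _ => ?_) (expect_comm _ _ _)
    exact expect_congr rfl fun h _ => by ring
  rw [e, fam, mul_expect]
  refine expect_le_expect fun h _ => ?_
  by_cases k : ∀ x, L x h = 0
  · simp only [k, ec_zero, mul_one, ← Complex.ofReal_expect, Complex.norm_real, Real.norm_eq_abs,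
      sq_abs, ind, implies_true, if_true, le_refl]
  · rw [ind, if_neg k, mul_zero]
    positivity

end BI2

theorem stBI2 : St_BI2 := fun _ _ hA =>
  ⟨fun d M f g => BI2.comp hA d M f g, fun {G V} _ _ _ _ _ _ d => ⟨BI2.unc d, fun L => by
      rw [(hA (G × V)).eq_cu, expect_prod]
      simp only [BI2.cu_unc, BI2.bias_snd, Fintype.expect_const], fun L x => by
      ext h
      rfl⟩, fun d L c => BI2.aff d L c, fun d L S => BI2.coll d L S⟩

end Pool.Agent.Lib.UD
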