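import Pool.Agent.Lib.UD.Blue
import Pool.Agent.Lib.U4.BLRb

noncomputable section

open Finset Module
open scoped BigOperators

namespace Pool.Agent.Lib.UD

open Pool.Agent.Lib.MP_3a84e0_co Pool.Agent.Lib.U4 Pool.Agent.Lib.U4.BLRb

namespace BLRW

variable {p d : ℕ} [Fact p.Prime] {V : Type} [AddCommGroup V] [Module (ZMod p) V] [Fintype V]

lemma add_ge (A : BiA p V) {M N : Ml p (d + 1) V} {a b : ℝ} (hb0 : 0 ≤ b) (ha : a ≤ bias M)
    (hb : b ≤ bias N) : a * b ≤ bias (M + N) :=
  (mul_le_mul ha hb hb0 (A.nonneg _ _)).trans (A.add d M N)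

lemma sub_ge (A : BiA p V) {M N : Ml p (d + 1) V} {a b : ℝ} (hb0 : 0 ≤ b) (ha : a ≤ bias M)
    (hb : b ≤ bias N) : a * b ≤ bias (M - N) :=
  (mul_le_mul ha hb hb0 (A.nonneg _ _)).trans (A.sub d M N)

lemma ind_lt_add (a b : ℝ) : ind (a < b) + ind (b ≤ a) = 1 := by
  rcases lt_or_ge a b with h | h
  · rw [ind_pos h, ind_neg (not_le.2 h), add_zero]
  · rw [ind_neg (not_lt.2 h), ind_pos h, zero_add]

end BLRW

open BLRW in
theorem stBLRW : St_BLRW := by
  intro R p d _ hA ⟨g, hg, H⟩
  refine ⟨fun ε => g ((ε / 2) ^ 6) * (ε / 2) ^ 3,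
    R.mul _ _ (R.comp g (fun ε => (ε / 2) ^ 6) hg (R.pow 6)) (R.pow 3), ?_⟩
  intro G V _ _ _ _ _ _ φ β hβ hβ1 hφ
  have A := hA V
  have h1 : ∀ v, ∃ M : Ml p (d + 1) V,
      𝔼 w, ind (bias (φ (v + w) - φ w - M) < β * β) ≤ 1 / 5 := by
    intro v
    have h2 : 𝔼 w', 𝔼 w, ind (bias (φ (v + w) - φ w - (φ (v + w') - φ w')) < β * β) ≤ 1 / 5 := by
      calc _ ≤ 𝔼 w', 𝔼 w, (ind (bias (df φ (v + w) w') < β) +
              ind (bias (df φ (v + w') w) < β)) := by
            refine expect_le_expect fun w' _ => expect_le_expect fun w _ => ind_or fun h => ?_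
            by_contra hc
            push Not at hc
            have e : φ (v + w) - φ w - (φ (v + w') - φ w') =
                df φ (v + w') w - df φ (v + w) w' := by
              unfold df
              rw [add_right_comm v w' w]
              abel
            rw [e] at h
            exact absurd (sub_ge A hβ.le hc.2 hc.1) (not_le.2 h)
        _ = 𝔼 w', 𝔼 w, ind (bias (df φ (v + w) w') < β) +
            𝔼 w', 𝔼 w, ind (bias (df φ (v + w') w) < β) := by
            simp only [expect_add_distrib]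
        _ ≤ 1 / 5 := by
            rw [expect_comm, expect_shift' (fun x => 𝔼 y, ind (bias (df φ x y) < β)) v]
            linarith
    obtain ⟨w', -, hw'⟩ := exists_le_of_expect_le univ_nonempty h2
    exact ⟨_, hw'⟩
  choose M hM using h1
  have hbb : 0 ≤ β * β := by positivity
  have h2 : ∀ v v', (β / 2) ^ 6 ≤ bias (df M v v') := by
    intro v v'
    have h3 : 𝔼 w, (ind (bias (φ (v + v' + w) - φ w - M (v + v')) < β * β) +
        ind (bias (φ (v + (v' + w)) - φ (v' + w) - M v) < β * β) +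
        ind (bias (φ (v' + w) - φ w - M v') < β * β)) < 1 := by
      rw [expect_add_distrib, expect_add_distrib,
        expect_shift' (fun x => ind (bias (φ (v + x) - φ x - M v) < β * β)) v']
      linarith [hM (v + v'), hM v, hM v']
    obtain ⟨w, hw⟩ := exists_not h3
    have a1 := ind_nonneg (bias (φ (v + v' + w) - φ w - M (v + v')) < β * β)
    have a2 := ind_nonneg (bias (φ (v + (v' + w)) - φ (v' + w) - M v) < β * β)
    have a3 := ind_nonneg (bias (φ (v' + w) - φ w - M v') < β * β)
    have b1 := not_lt.1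
      (of_lt (P := bias (φ (v + v' + w) - φ w - M (v + v')) < β * β) (by linarith))
    have b2 := not_lt.1
      (of_lt (P := bias (φ (v + (v' + w)) - φ (v' + w) - M v) < β * β) (by linarith))
    have b3 := not_lt.1 (of_lt (P := bias (φ (v' + w) - φ w - M v') < β * β) (by linarith))
    have e : df M v v' = (φ (v + (v' + w)) - φ (v' + w) - M v) + (φ (v' + w) - φ w - M v') -
        (φ (v + v' + w) - φ w - M (v + v')) := by
      unfold df
      rw [add_assoc v v' w]
      abel
    rw [e]
    refine le_trans ?_ (sub_ge A hbb (add_ge A hbb b2 b3) b1)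
    calc (β / 2) ^ 6 ≤ β ^ 6 := pow_le_pow_left₀ (by positivity) (by linarith) 6
      _ = _ := by ring
  have hp0 : 0 < (β / 2) ^ 6 := by positivity
  have hp1 : (β / 2) ^ 6 ≤ 1 := pow_le_one₀ (by positivity) (by linarith)
  obtain ⟨T, hT⟩ := H M _ hp0 hp1 h2
  have hg0 : 0 < g ((β / 2) ^ 6) := (R.pos g hg _ hp0 hp1).1
  have h3 : 𝔼 x, ind (bias (M x - T x) < g ((β / 2) ^ 6)) ≤ 1 / 4 := by
    have : 𝔼 x, (ind (bias (M x - T x) < g ((β / 2) ^ 6)) +
        ind (g ((β / 2) ^ 6) ≤ bias (M x - T x))) = 1 := by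
      simp only [ind_lt_add]
      exact expect_const univ_nonempty _
    rw [expect_add_distrib] at this
    linarith
  refine ⟨T, ?_⟩
  have h4 : ∀ x, ind (bias (φ x - T x) < g ((β / 2) ^ 6) * (β / 2) ^ 3) ≤
      ind (bias (M x - T x) < g ((β / 2) ^ 6)) + 5 / 4 * 𝔼 w, ind (bias (df φ x w) < β) := by
    intro x
    have e0 : 0 ≤ 𝔼 w, ind (bias (df φ x w) < β) := expect_nonneg fun w _ => ind_nonneg _
    have e1 := ind_nonneg (bias (M x - T x) < g ((β / 2) ^ 6))
    refine ind_le (by linarith only [e0, e1]) fun h => ?_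
    by_cases hx : 4 / 5 ≤ 𝔼 w, ind (bias (df φ x w) < β)
    · linarith
    have h5 : 𝔼 w, (ind (bias (df φ x w) < β) +
        ind (bias (φ (x + w) - φ w - M x) < β * β)) < 1 := by
      rw [expect_add_distrib]
      linarith [hM x]
    obtain ⟨w, hw⟩ := exists_not h5
    have a1 := ind_nonneg (bias (df φ x w) < β)
    have a2 := ind_nonneg (bias (φ (x + w) - φ w - M x) < β * β)
    have b1 := not_lt.1 (of_lt (P := bias (df φ x w) < β) (by linarith))
    have b2 := not_lt.1 (of_lt (P := bias (φ (x + w) - φ w - M x) < β * β) (by linarith))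
    have e : φ x - T x = (φ (x + w) - φ w - M x) - df φ x w + (M x - T x) := by
      unfold df
      abel
    rw [e] at h
    have h6 : bias (M x - T x) < g ((β / 2) ^ 6) := by
      by_contra hc
      have h7 := add_ge A hg0.le (sub_ge A hβ.le b2 b1) (not_lt.1 hc)
      have h8 : (β / 2) ^ 3 ≤ β * β * β := by
        calc (β / 2) ^ 3 ≤ β ^ 3 := pow_le_pow_left₀ (by positivity) (by linarith) 3
          _ = _ := by ring
      have h9 := mul_le_mul_of_nonneg_left h8 hg0.le
      linarith [mul_comm (β * β * β) (g ((β / 2) ^ 6))]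
    rw [ind_pos h6]
    linarith
  refine (expect_le_expect fun x _ => h4 x).trans ?_
  rw [expect_add_distrib, ← mul_expect]
  linarith

end Pool.Agent.Lib.UD
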