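import Pool.Agent.Lib.UD.Blue
import Pool.Agent.Lib.U4.GCS

/-! Weighted Gowers-Cauchy-Schwarz. -/

noncomputable section

open Finset
open scoped BigOperators

namespace Pool.Agent.Lib.UD

open Pool.Agent.Lib.MP_3a84e0_co Pool.Agent.Lib.U4

theorem swap4 {G Z : Type} [Fintype G] [Fintype Z] (f : G → G → G → Z → ℝ) :
    𝔼 x, 𝔼 y, 𝔼 t, 𝔼 z, f x y t z = 𝔼 z, 𝔼 x, 𝔼 y, 𝔼 t, f x y t z := by
  have h1 : ∀ x y, 𝔼 t, 𝔼 z, f x y t z = 𝔼 z, 𝔼 t, f x y t z := fun x y => expect_comm _ _ _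
  have h2 : ∀ x, 𝔼 y, 𝔼 z, 𝔼 t, f x y t z = 𝔼 z, 𝔼 y, 𝔼 t, f x y t z := fun x => expect_comm _ _ _
  simp only [h1, h2]
  exact expect_comm _ _ _

theorem stGCSW : St_GCSW := by
  intro p _ hB G V _ _ _ _ _ d g B
  have key : ∀ (c : G → G → G → ℝ), 𝔼 x, 𝔼 y, 𝔼 t, c x y t * bias (dq g x y t) =
      𝔼 z : Fin d → V, 𝔼 x, 𝔼 y, 𝔼 t, c x y t *
        ind (dq (fun x => (fun u => g x (Fin.cons u z) : V → ZMod p)) x y t = 0) := by
    intro c
    rw [← swap4]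
    refine expect_congr rfl fun x _ => expect_congr rfl fun y _ => expect_congr rfl fun t _ => ?_
    rw [(hB V).eq_ind, mul_expect]
    refine expect_congr rfl fun z _ => congrArg _ (GCS.ind_congr ?_)
    simp [dq, funext_iff]
  rw [key fun x _ _ => ind (x ∈ B), key fun x y t => in4 B x y t]
  refine (pow_expect_le (fun z => expect_nonneg fun x _ => expect_nonneg fun y _ =>
    expect_nonneg fun t _ => mul_nonneg (GCS.ind_nonneg _) (GCS.ind_nonneg _)) 2).trans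
    (expect_le_expect fun z _ => ?_)
  simp only [← GCS.ind_and]
  exact stGCS _ B

end Pool.Agent.Lib.UD
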