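import Pool.Agent.Lib.UD.Blue

/-!
Few affine families explain almost all weighted quadruples.
-/

noncomputable section

open Finset
open scoped BigOperators

namespace Pool.Agent.Lib.UD

open Pool.Agent.Lib.MP_3a84e0_co Pool.Agent.Lib.U4

namespace LABWb

variable {G ι : Type} [Fintype G]

/-- The points not explained by the labels in `s`. -/
def B (b : G → ι → ℝ) (r : ℝ) (s : Finset ι) : Set G := {x | ∀ L ∈ s, b x L < r}

lemma ind_nonneg (P : Prop) : 0 ≤ ind P := by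
  unfold ind; split_ifs <;> norm_num

lemma ind_le_one (P : Prop) : ind P ≤ 1 := by
  unfold ind; split_ifs <;> norm_num

lemma greedy [Nonempty G] (i0 : ι) (b : G → ι → ℝ) (hb : ∀ x L, b x L ≤ 1) (F : Set G → ℝ)
    (r e θ : ℝ) (hr : 0 ≤ r)
    (h : ∀ A : Set G, e ≤ F A → ∃ L : ι, θ + r ≤ 𝔼 x, ind (x ∈ A) * b x L) (n : ℕ) :
    ∃ s : Finset ι, s.Nonempty ∧ s.card ≤ n + 1 ∧
      (F (B b r s) ≤ e ∨ 𝔼 x, ind (x ∈ B b r s) ≤ 1 - n * θ) := by
  classical
  induction n with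
  | zero =>
    refine ⟨{i0}, singleton_nonempty _, by simp, Or.inr ?_⟩
    rw [Nat.cast_zero, zero_mul, sub_zero]
    exact expect_le univ_nonempty fun x _ => ind_le_one _
  | succ n ih =>
    obtain ⟨s, h1, h2, h3⟩ := ih
    by_cases h4 : F (B b r s) ≤ e
    · exact ⟨s, h1, by omega, Or.inl h4⟩
    obtain ⟨L, h5⟩ := h _ (not_le.1 h4).le
    refine ⟨insert L s, insert_nonempty _ _, (card_insert_le _ _).trans (by omega), Or.inr ?_⟩
    have h6 : ∀ x, ind (x ∈ B b r (insert L s)) ≤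
        ind (x ∈ B b r s) - ind (x ∈ B b r s) * b x L + r := by
      intro x
      have : x ∈ B b r (insert L s) ↔ b x L < r ∧ x ∈ B b r s := by simp [B]
      rw [this]
      have := hb x L
      by_cases a : x ∈ B b r s <;> by_cases c : b x L < r <;> simp [ind, a, c] <;> linarith
    have h7 := expect_le_expect (s := univ) fun x _ => h6 x
    rw [expect_add_distrib, expect_sub_distrib, expect_const univ_nonempty] at h7
    have := h3.resolve_left h4
    push_cast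
    linarith

end LABWb

theorem stLABW : St_LABW := by
  classical
  intro R p d _ hA hG ⟨g0, hg0, hC⟩
  refine ⟨fun ε => g0 ((ε / 2) ^ 4) * (ε / 2) ^ 2,
    R.mul _ _ (R.comp g0 _ hg0 (R.pow 4)) (R.pow 2), fun {G V} _ _ _ _ _ _ g γ h0 h1 => ?_⟩
  have hc0 : 0 < (γ / 2) ^ 4 := by positivity
  have hc1 : (γ / 2) ^ 4 ≤ 1 := pow_le_one₀ (by positivity) (by linarith)
  obtain ⟨hθ, hθ1⟩ := R.pos g0 hg0 _ hc0 hc1
  set θ := g0 ((γ / 2) ^ 4) with hθd
  have hq : (γ / 2) ^ 2 ≤ 1 / 4 := by nlinarith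
  have hr : θ * (γ / 2) ^ 2 ≤ θ / 4 := by nlinarith
  have hr0 : 0 ≤ θ * (γ / 2) ^ 2 := by positivity
  have hθ2 : 0 < θ / 2 := by positivity
  obtain ⟨s, hs, hc, h⟩ := LABWb.greedy (G := G)
    (ι := (G →ₗ[ZMod p] Ml p (d + 1) V) × Ml p (d + 1) V) 0
    (fun x L => bias (g x - L.1 x - L.2)) (fun _ _ => (hA V).le_one _ _)
    (fun A => 𝔼 x, 𝔼 y, 𝔼 t, in4 A x y t * bias (dq g x y t))
    (θ * (γ / 2) ^ 2) ((γ / 2) ^ 4) (θ / 2) hr0
    (fun A hA' => by
      obtain ⟨T, B0, hT⟩ := hC g A _ hc0 hA'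
      exact ⟨(T, B0), le_trans (by linarith) hT⟩) (⌊1 / (θ / 2)⌋₊ + 1)
  set B := LABWb.B (fun x (L : (G →ₗ[ZMod p] Ml p (d + 1) V) × Ml p (d + 1) V) =>
    bias (g x - L.1 x - L.2)) (θ * (γ / 2) ^ 2) s with hB
  have h2 : 𝔼 x, 𝔼 y, 𝔼 t, in4 B x y t * bias (dq g x y t) ≤ (γ / 2) ^ 4 := by
    refine h.resolve_right fun h3 => ?_
    have a1 : 0 ≤ 𝔼 x, ind (x ∈ B) := expect_nonneg fun x _ => LABWb.ind_nonneg _
    have a2 := Nat.lt_floor_add_one (1 / (θ / 2))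
    rw [div_lt_iff₀ hθ2] at a2
    push_cast at h3
    linarith
  have h3 : ∀ x, ∃ L ∈ s, (bias (g x - L.1 x - L.2) < θ * (γ / 2) ^ 2 ↔ x ∈ B) := by
    intro x
    by_cases hx : x ∈ B
    · obtain ⟨L, hL⟩ := hs
      exact ⟨L, hL, iff_of_true (hx L hL) hx⟩
    · have hx' := hx
      simp only [hB, LABWb.B, Set.mem_ofPred_eq, not_forall] at hx'
      obtain ⟨L, hL, hL'⟩ := hx'
      exact ⟨L, hL, iff_of_false hL' hx⟩
  choose lab hl hl' using h3
  refine ⟨lab, s, hl, ?_, ?_⟩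
  · have a1 : (s.card : ℝ) ≤ ⌊1 / (θ / 2)⌋₊ + 1 + 1 := by exact_mod_cast hc
    have a2 := Nat.floor_le (one_div_pos.2 hθ2).le
    have a3 : (s.card : ℝ) ≤ 4 / θ := by
      have b1 : 1 / (θ / 2) = 2 / θ := by field_simp
      have b2 : 2 ≤ 2 / θ := by rw [le_div_iff₀ hθ]; linarith
      have b3 : 4 / θ = 2 / θ + 2 / θ := by ring
      linarith
    calc (s.card : ℝ) * (θ * (γ / 2) ^ 2) ≤ 4 / θ * (θ / 4) := by gcongr
      _ = 1 := by field_simp
  · simp only [← hθd, hl']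
    have a1 := (pow_le_pow_iff_left₀ (expect_nonneg fun _ _ => expect_nonneg fun _ _ =>
      expect_nonneg fun _ _ => mul_nonneg (LABWb.ind_nonneg _) ((hA V).nonneg _ _))
      (by positivity) (by norm_num)).1 ((hG d g B).trans h2)
    linarith

end Pool.Agent.Lib.UD
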