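import Pool.Agent.Lib.UD.Blue
import Pool.Agent.Lib.MP_3a84e0_co.Red

/-! Polynomial rates form a class of rates. -/

noncomputable section

namespace Pool.Agent.Lib.UD

open Pool.Agent.Lib.MP_3a84e0_co Pool.Agent.Lib.U4

lemma PolyA.pos {g : ℝ → ℝ} (h : PolyA g) {ε : ℝ} (h0 : 0 < ε) (h1 : ε ≤ 1) :
    0 < g ε ∧ g ε ≤ 1 := by
  obtain ⟨h2, C, h3⟩ := h
  exact ⟨lt_of_lt_of_le (by positivity) (h3 ε h0 h1), h2 ε h0 h1⟩

/-- The class of polynomial rates. -/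
def polyRC : RC where
  A := PolyA
  pos := fun _ h _ h0 h1 => h.pos h0 h1
  pow := fun n => ⟨fun ε h0 h1 => pow_le_one₀ (by positivity) (by linarith), n,
    fun _ _ _ => le_rfl⟩
  comp := fun g h hg hh => by
    refine ⟨fun ε h0 h1 => hg.1 _ (hh.pos h0 h1).1 (hh.pos h0 h1).2, ?_⟩
    obtain ⟨C, hC⟩ := hg.2
    obtain ⟨D, hD⟩ := hh.2
    refine ⟨(D + 1) * C, fun ε h0 h1 => le_trans ?_ (hC _ (hh.pos h0 h1).1 (hh.pos h0 h1).2)⟩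
    rw [pow_mul]
    refine pow_le_pow_left₀ (by positivity) ?_ _
    have h2 := hD ε h0 h1
    have h3 : 0 < (ε / 2) ^ D := by positivity
    rw [pow_succ]; nlinarith
  mul := fun g h hg hh => by
    refine ⟨fun ε h0 h1 => mul_le_one₀ (hg.1 ε h0 h1) (hh.pos h0 h1).1.le (hh.1 ε h0 h1), ?_⟩
    obtain ⟨C, hC⟩ := hg.2
    obtain ⟨D, hD⟩ := hh.2
    refine ⟨C + D, fun ε h0 h1 => ?_⟩
    rw [pow_add]
    exact mul_le_mul (hC ε h0 h1) (hD ε h0 h1) (by positivity) (hg.pos h0 h1).1.le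

theorem stPOLY : St_POLY := by
  refine ⟨⟨polyRC, rfl⟩, fun R p d _ h => ?_, fun R p k _ h => ?_, fun R p k _ hR h => ?_⟩
  · obtain ⟨C, hC⟩ := h
    exact ⟨_, R.pow C, hC⟩
  · obtain ⟨C, hC⟩ := h
    exact ⟨_, R.pow C, hC⟩
  · obtain ⟨g, hg, h⟩ := h
    rw [hR] at hg
    obtain ⟨C, hC⟩ := hg.2
    refine ⟨C, fun f δ h0 hf h1 => ?_⟩
    obtain ⟨ψ, h2, h3⟩ := h f δ h0 hf h1
    exact ⟨ψ, h2, (hC δ h0 (h1.trans (gw_le_one k hf))).trans h3⟩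

end Pool.Agent.Lib.UD
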