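import Pool.Agent.Lib.UD.Blue
import Pool.Agent.Lib.U4.RM2

/-!
Maps into multilinear forms that respect many quadruples up to biased forms agree, up to biased
forms, with an affine map on a large set: the inductive step.
-/

noncomputable section

open Finset
open scoped BigOperators

namespace Pool.Agent.Lib.UD

open Pool.Agent.Lib.MP_3a84e0_co Pool.Agent.Lib.U4 Pool.Agent.Lib.U4.RM2b

namespace RMWb

variable {p d : ℕ} [Fact p.Prime] {G V : Type} [AddCommGroup G] [Module (ZMod p) G]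
  [AddCommGroup V] [Module (ZMod p) V]

lemma cu_add (M N : Ml p (d + 1) V) (v : V) : cu (M + N) v = cu M v + cu N v := by
  ext h; simp [cu]

lemma cu_sub (M N : Ml p (d + 1) V) (v : V) : cu (M - N) v = cu M v - cu N v := by
  ext h; simp [cu]

lemma cu_smul (a : ZMod p) (M : Ml p (d + 1) V) (v : V) : cu (a • M) v = a • cu M v := by
  ext h; simp [cu]

/-- Evaluation of the first variable as a linear map of the form. -/
def cuv (v : V) : Ml p (d + 1) V →ₗ[ZMod p] Ml p d V where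
  toFun M := cu M v
  map_add' M N := cu_add M N v
  map_smul' a M := cu_smul a M v

/-- Restriction of a form on `G × V` to a linear family of forms on `V`. -/
def res : Ml p (d + 2) (G × V) →ₗ[ZMod p] G →ₗ[ZMod p] Ml p (d + 1) V :=
  LinearMap.mk₂ (ZMod p)
    (fun M x => ((cu M (LinearMap.inl (ZMod p) G V x)).compLinearMap
      fun _ => LinearMap.inr (ZMod p) G V : Ml p (d + 1) V))
    (fun M N x => by rw [cu_add]; rfl)
    (fun a M x => by rw [cu_smul]; rfl)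
    (fun M x y => by rw [map_add, map_add]; rfl)
    (fun a M x => by rw [map_smul, map_smul]; rfl)

lemma res_apply (M : Ml p (d + 2) (G × V)) (x : G) : res M x =
    ((cu M (LinearMap.inl (ZMod p) G V x)).compLinearMap
      fun _ => LinearMap.inr (ZMod p) G V : Ml p (d + 1) V) := rfl

/-- Gluing a linear family. -/
lemma exists_glue (W : V →ₗ[ZMod p] G →ₗ[ZMod p] Ml p (d + 1) V) :
    ∃ T : G →ₗ[ZMod p] Ml p (d + 2) V, ∀ x v, cu (T x) v = W v x := by
  refine ⟨(multilinearCurryLeftEquiv (ZMod p) (fun _ : Fin (d + 2) => V)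
    (ZMod p)).symm.toLinearMap ∘ₗ W.flip, fun x v => ?_⟩
  ext h
  simp [cu]

variable [Fintype G] [Fintype V]

/-- Jointly valid affine families have a biased defect. -/
lemma defect (hA : BA p) (hB : BiB p) (φ : G → Ml p (d + 2) V) (A : Set G)
    (l : V → G →ₗ[ZMod p] Ml p (d + 1) V) (c : V → Ml p (d + 1) V) (b : ℝ) (hb : 0 ≤ b)
    (v v' : V) :
    b ^ 3 * 𝔼 x, ind (x ∈ A ∧ b ≤ bias (cu (φ x) v - l v x - c v) ∧
      b ≤ bias (cu (φ x) v' - l v' x - c v') ∧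
      b ≤ bias (cu (φ x) (v + v') - l (v + v') x - c (v + v'))) ≤
      𝔼 x, bias (df l v v' x) := by
  refine le_trans ?_ (hB.aff d (df l v v') (df c v v'))
  rw [mul_expect]
  refine expect_le_expect fun x _ => ?_
  by_cases hx : x ∈ A ∧ b ≤ bias (cu (φ x) v - l v x - c v) ∧
      b ≤ bias (cu (φ x) v' - l v' x - c v') ∧
      b ≤ bias (cu (φ x) (v + v') - l (v + v') x - c (v + v'))
  · rw [ind_of hx, mul_one]
    obtain ⟨-, e1, e2, e3⟩ := hx
    have a1 := (hA V).add d (cu (φ x) v - l v x - c v) (cu (φ x) v' - l v' x - c v')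
    have a2 := (hA V).sub d (cu (φ x) v - l v x - c v + (cu (φ x) v' - l v' x - c v'))
      (cu (φ x) (v + v') - l (v + v') x - c (v + v'))
    have a3 : cu (φ x) v - l v x - c v + (cu (φ x) v' - l v' x - c v') -
        (cu (φ x) (v + v') - l (v + v') x - c (v + v')) = df l v v' x + df c v v' := by
      simp only [df, LinearMap.sub_apply, map_add]
      abel
    rw [a3] at a2
    have a4 : b * b ≤ bias (cu (φ x) v - l v x - c v + (cu (φ x) v' - l v' x - c v')) :=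
      le_trans (mul_le_mul e1 e2 hb (hb.trans e1)) a1
    calc b ^ 3 = b * b * b := by ring
      _ ≤ _ := mul_le_mul a4 e3 hb ((mul_nonneg hb hb).trans a4)
      _ ≤ _ := a2
  · rw [ind_of_not hx, mul_zero]
    exact (hA V).nonneg _ _

/-- The final averaging. -/
lemma final (hA : BA p) (hB : BiB p) (hL : LinA p) (φ : G → Ml p (d + 2) V) (A : Set G)
    (K : Submodule (ZMod p) V) [Fintype K] (l : V → G →ₗ[ZMod p] Ml p (d + 1) V)
    (c : V → Ml p (d + 1) V) (T : G →ₗ[ZMod p] Ml p (d + 2) V) (a b r : ℝ) (hb : 0 ≤ b)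
    (hr : 0 ≤ r)
    (h : a ≤ 𝔼 v : K, ind (r ≤ 𝔼 x, bias (l v x - cu (T x) v) ∧
      b ≤ 𝔼 x, ind (x ∈ A ∧ b ≤ bias (cu (φ x) v - l v x - c v)))) :
    ∃ B0 : Ml p (d + 2) V, (𝔼 v, ind (v ∈ K)) * (a * (b ^ 4 * r)) ≤
      𝔼 x, ind (x ∈ A) * bias (φ x - T x - B0) := by
  set F : V → ℝ := fun v => 𝔼 x, 𝔼 x',
    ind (x ∈ A) * bias (cu (φ x - T x - (φ x' - T x')) v) with hF
  have hF0 : ∀ v, 0 ≤ F v := fun v =>
    expect_nonneg fun _ _ => expect_nonneg fun _ _ =>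
      mul_nonneg (ind_nonneg _) ((hA V).nonneg _ _)
  have hq : 0 ≤ b ^ 4 * r := by positivity
  have h1 : ∀ v, ind (r ≤ 𝔼 x, bias (l v x - cu (T x) v) ∧
      b ≤ 𝔼 x, ind (x ∈ A ∧ b ≤ bias (cu (φ x) v - l v x - c v))) * (b ^ 4 * r) ≤ F v := by
    intro v
    by_cases hv : r ≤ 𝔼 x, bias (l v x - cu (T x) v) ∧
        b ≤ 𝔼 x, ind (x ∈ A ∧ b ≤ bias (cu (φ x) v - l v x - c v))
    · rw [ind_of hv, one_mul]
      set L : G →ₗ[ZMod p] Ml p (d + 1) V := l v - cuv v ∘ₗ T with hLdef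
      have hLx : ∀ x, L x = l v x - cu (T x) v := fun x => rfl
      have h2 := hB.coll d L {x | x ∈ A ∧ b ≤ bias (cu (φ x) v - l v x - c v)}
      simp only [Set.mem_ofPred_eq] at h2
      have h3 : b ^ 2 * r ≤ (𝔼 x, ind (x ∈ A ∧ b ≤ bias (cu (φ x) v - l v x - c v))) ^ 2 *
          𝔼 x, bias (L x) :=
        mul_le_mul (pow_le_pow_left₀ hb hv.2 2) hv.1 hr (by positivity)
      calc b ^ 4 * r = b ^ 2 * (b ^ 2 * r) := by ring
        _ ≤ _ := mul_le_mul_of_nonneg_left (h3.trans h2) (by positivity)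
        _ ≤ F v := ?_
      rw [hF]
      simp only [mul_expect]
      refine expect_le_expect fun x _ => expect_le_expect fun x' _ => ?_
      by_cases hx : (x ∈ A ∧ b ≤ bias (cu (φ x) v - l v x - c v)) ∧
          x' ∈ A ∧ b ≤ bias (cu (φ x') v - l v x' - c v)
      · rw [ind_of hx, ind_of hx.1.1, one_mul, one_mul]
        obtain ⟨⟨-, e1⟩, -, e2⟩ := hx
        have a1 := (hA V).sub d (cu (φ x) v - l v x - c v) (cu (φ x') v - l v x' - c v)
        have a2 := (hA V).add d (cu (φ x) v - l v x - c v - (cu (φ x') v - l v x' - c v))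
          (L x - L x')
        have a3 : cu (φ x) v - l v x - c v - (cu (φ x') v - l v x' - c v) + (L x - L x') =
            cu (φ x - T x - (φ x' - T x')) v := by
          simp only [hLx, cu_sub]
          abel
        rw [a3] at a2
        have a4 : b ^ 2 ≤ bias (cu (φ x) v - l v x - c v - (cu (φ x') v - l v x' - c v)) := by
          rw [sq]
          exact le_trans (mul_le_mul e1 e2 hb (hb.trans e1)) a1
        exact le_trans (mul_le_mul_of_nonneg_right a4 ((hA V).nonneg _ _)) a2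
      · rw [ind_of_not hx, zero_mul, mul_zero]
        exact mul_nonneg (ind_nonneg _) ((hA V).nonneg _ _)
    · rw [ind_of_not hv, zero_mul]; exact hF0 v
  have h3 : a * (b ^ 4 * r) ≤ 𝔼 v : K, F v := by
    refine (mul_le_mul_of_nonneg_right h hq).trans ?_
    rw [expect_mul]
    exact expect_le_expect fun v _ => h1 v
  have h4 : (𝔼 v, ind (v ∈ K)) * 𝔼 v : K, F v ≤ 𝔼 v, F v := by
    rw [← hL.sub_avg K F]
    exact expect_le_expect fun v _ => mul_le_of_le_one_left (hF0 v) (ind_le_one _)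
  have h5 : 𝔼 v, F v = 𝔼 x', 𝔼 x, ind (x ∈ A) * bias (φ x - T x - (φ x' - T x')) := by
    rw [hF]
    simp only [(hA V).eq_cu, mul_expect]
    rw [expect_comm, expect_comm univ univ
      (fun x' x => 𝔼 v, ind (x ∈ A) * bias (cu (φ x - T x - (φ x' - T x')) v))]
    exact expect_congr rfl fun x _ => expect_comm _ _ _
  have hκ : 0 ≤ 𝔼 v, ind (v ∈ K) := expect_nonneg fun _ _ => ind_nonneg _
  have h6 := (mul_le_mul_of_nonneg_left h3 hκ).trans (h4.trans h5.le)
  obtain ⟨x', -, hx'⟩ := exists_le_of_le_expect univ_nonempty h6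
  exact ⟨φ x' - T x', hx'⟩

end RMWb

open RMWb in
theorem stRMW : St_RMW := by
  intro R p d _ hA hBi hL hB hS
  obtain ⟨r2, hr2, hB⟩ := hB
  obtain ⟨r1, hr1, hS⟩ := hS
  have hr4 : R.A fun ε => r1 ε * r1 ε * (r1 ε * r1 ε) :=
    R.mul _ _ (R.mul _ _ hr1 hr1) (R.mul _ _ hr1 hr1)
  refine ⟨fun ε => (ε / 2) ^ 3 * (r1 ε * r1 ε * (r1 ε * r1 ε) *
    r2 (r1 ε * r1 ε * (r1 ε * r1 ε))),
    R.mul _ _ (R.pow 3) (R.mul _ _ hr4 (R.comp _ _ hr2 hr4)), ?_⟩
  intro G V _ _ _ _ _ _ φ A ε hε h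
  classical
  obtain ⟨K, l, c, hκ, hbad⟩ := hS φ A ε hε h
  have hε1 : ε ≤ 1 := h.trans (expect_le univ_nonempty fun _ _ => expect_le univ_nonempty
    fun _ _ => expect_le univ_nonempty fun _ _ =>
      mul_le_one₀ (ind_le_one _) ((hA V).nonneg _ _) ((hA V).le_one _ _))
  obtain ⟨hb0, hb1⟩ := R.pos _ hr1 ε hε hε1
  set b : ℝ := r1 ε with hb
  have hb4 : b * b * (b * b) = b ^ 4 := by ring
  show ∃ (T : G →ₗ[ZMod p] Ml p (d + 2) V) (B0 : Ml p (d + 2) V),
    (ε / 2) ^ 3 * (b * b * (b * b) * r2 (b * b * (b * b))) ≤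
      𝔼 x, ind (x ∈ A) * bias (φ x - T x - B0)
  rw [hb4]
  have hβ0 : 0 < b ^ 4 := by positivity
  have hβ1 : b ^ 4 ≤ 1 := pow_le_one₀ hb0.le hb1
  obtain ⟨hq0, -⟩ := R.pos _ hr2 (b ^ 4) hβ0 hβ1
  have : Fintype K := Fintype.ofFinite K
  obtain ⟨e, he1, he2⟩ := hBi.lift (G := G) (V := V) d
  set D : V → V → ℝ := fun v v' => 𝔼 x, ind (x ∈ A ∧ b ≤ bias (cu (φ x) v - l v x - c v) ∧
      b ≤ bias (cu (φ x) v' - l v' x - c v') ∧
      b ≤ bias (cu (φ x) (v + v') - l (v + v') x - c (v + v'))) with hD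
  have hθ0 : 0 < ε / 2 := by positivity
  have hbad' : 𝔼 v : K, 𝔼 v' : K, ind (D v v' < b) ≤ 1 / 10 := by
    have h1 := pair_avg hL K (fun v v' => D v v' < b)
    have h2 : (𝔼 v, ind (v ∈ K)) ^ 2 * 𝔼 v : K, 𝔼 v' : K, ind (D v v' < b) ≤
        (𝔼 v, ind (v ∈ K)) ^ 2 * (1 / 10) := by
      rw [← h1]; linarith
    exact le_of_mul_le_mul_left h2 (pow_pos (hθ0.trans_le hκ) 2)
  obtain ⟨T, hT⟩ := hB (G := K) (fun v => e (l v)) (b ^ 4) hβ0 hβ1 (by
    refine le_trans (expect_le_expect fun v _ => expect_le_expect fun v' _ => ind_mono ?_) hbad'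
    intro hlt
    by_contra hge
    have h1 := defect hA hBi φ A l c b hb0.le v v'
    have h2 : df (fun v : K => e (l v)) v v' = e (df l v v') := by simp [df]
    rw [h2, he1] at hlt
    have h3 : b ^ 3 * b ≤ b ^ 3 * D v v' :=
      mul_le_mul_of_nonneg_left (not_lt.1 hge) (by positivity)
    have h4 : b ^ 3 * b = b ^ 4 := by ring
    linarith)
  obtain ⟨π, hπ⟩ : ∃ π : V →ₗ[ZMod p] K, ∀ v : K, π v = v := by
    obtain ⟨π, hπ⟩ := LinearMap.exists_leftInverse_of_injective K.subtype K.ker_subtype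
    exact ⟨π, fun v => LinearMap.congr_fun hπ v⟩
  obtain ⟨T', hT'⟩ := exists_glue (res ∘ₗ (T.toZModLinearMap p) ∘ₗ π)
  have hT'v : ∀ (v : K) x, cu (T' x) v = res (T v) x := by
    intro v x
    rw [hT']
    simp [hπ]
  have hres : ∀ v : K, bias (e (l v) - T v) ≤ 𝔼 x, bias (l v x - cu (T' x) v) := by
    intro v
    refine (hBi.comp d (e (l v) - T v) (LinearMap.inl (ZMod p) G V)
      (LinearMap.inr (ZMod p) G V)).trans (le_of_eq (expect_congr rfl fun x _ => ?_))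
    rw [← res_apply, map_sub, LinearMap.sub_apply, hT'v, res_apply (e (l v))]
    exact congrArg (fun M => bias (M - res (T v) x)) (he2 (l v) x)
  have hgood : (2 / 5 : ℝ) ≤ 𝔼 v : K, ind (r2 (b ^ 4) ≤ 𝔼 x, bias (l v x - cu (T' x) v) ∧
      b ≤ 𝔼 x, ind (x ∈ A ∧ b ≤ bias (cu (φ x) v - l v x - c v))) := by
    have h1 : ∀ v : K, 1 - ind (bias (e (l v) - T v) < r2 (b ^ 4)) -
        𝔼 v' : K, ind (D v v' < b) ≤
        ind (r2 (b ^ 4) ≤ 𝔼 x, bias (l v x - cu (T' x) v) ∧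
          b ≤ 𝔼 x, ind (x ∈ A ∧ b ≤ bias (cu (φ x) v - l v x - c v))) := by
      intro v
      have e0 : 0 ≤ 𝔼 v' : K, ind (D v v' < b) := expect_nonneg fun _ _ => ind_nonneg _
      have e1 := ind_nonneg (r2 (b ^ 4) ≤ 𝔼 x, bias (l v x - cu (T' x) v) ∧
          b ≤ 𝔼 x, ind (x ∈ A ∧ b ≤ bias (cu (φ x) v - l v x - c v)))
      by_cases a1 : bias (e (l v) - T v) < r2 (b ^ 4)
      · rw [ind_of a1]
        linarith
      · by_cases a2 : b ≤ 𝔼 x, ind (x ∈ A ∧ b ≤ bias (cu (φ x) v - l v x - c v))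
        · rw [ind_of_not a1, ind_of ⟨(not_lt.1 a1).trans (hres v), a2⟩]
          linarith
        · have e2 : 1 ≤ 𝔼 v' : K, ind (D v v' < b) := by
            refine le_expect univ_nonempty fun v' _ => (ind_of ?_).ge
            refine lt_of_le_of_lt ?_ (not_le.1 a2)
            exact expect_le_expect fun x _ => ind_mono fun hx => ⟨hx.1, hx.2.1⟩
          linarith [ind_nonneg (bias (e (l v) - T v) < r2 (b ^ 4))]
    refine le_trans ?_ (expect_le_expect fun v _ => h1 v)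
    rw [expect_sub_distrib, expect_sub_distrib, Fintype.expect_const]
    linarith
  obtain ⟨B0, hB0⟩ := final hA hBi hL φ A K l c T' (2 / 5) b (r2 (b ^ 4)) hb0.le hq0.le hgood
  refine ⟨T', B0, le_trans ?_ hB0⟩
  have e2 : (ε / 2) ^ 2 ≤ 2 / 5 := by nlinarith
  calc (ε / 2) ^ 3 * (b ^ 4 * r2 (b ^ 4)) = ε / 2 * ((ε / 2) ^ 2 * (b ^ 4 * r2 (b ^ 4))) := by
        ring
    _ ≤ (𝔼 v, ind (v ∈ K)) * (2 / 5 * (b ^ 4 * r2 (b ^ 4))) := by
        have : 0 ≤ 𝔼 v, ind (v ∈ K) := expect_nonneg fun _ _ => ind_nonneg _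
        gcongr

end Pool.Agent.Lib.UD
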