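import Pool.Agent.Lib.UD.Blue
import Pool.Agent.Lib.U4.SAMPLE

/-!
Block SAMPLEW: a subspace on which the chosen affine families are almost always jointly valid.
-/

noncomputable section

open Finset Module
open scoped BigOperators

namespace Pool.Agent.Lib.UD

open Pool.Agent.Lib.MP_3a84e0_co Pool.Agent.Lib.U4 Pool.Agent.Lib.U4.SAMPLE

namespace SAMPLEW

lemma ind_and (P Q : Prop) : ind (P ∧ Q) = ind P * ind Q := by
  by_cases hP : P
  · by_cases hQ : Q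
    · rw [ind_pos hP, ind_pos hQ, ind_pos ⟨hP, hQ⟩, one_mul]
    · rw [ind_neg hQ, ind_neg (fun h => hQ h.2), mul_zero]
  · rw [ind_neg hP, ind_neg (fun h => hP h.1), zero_mul]

/-- Choice of a good quadruple together with an extra parameter. -/
lemma pick4 {G Z : Type} [Fintype G] [Nonempty G] [Fintype Z] [Nonempty Z]
    (w : G → G → G → ℝ) (b a : G → G → G → Z → ℝ) (σ : G → ℝ) (θ : ℝ)
    (hθ : 0 < θ) (hθ2 : θ ≤ 1 / 2) (P : G → G → G → Prop)
    (hw : ∀ x y t, w x y t = ind (P x y t)) (hb : ∀ x y t z, b x y t z ≤ 1)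
    (ha0 : ∀ x y t z, 0 ≤ a x y t z) (hσ0 : ∀ x, 0 ≤ σ x)
    (hε : 2 * θ ≤ 𝔼 x, 𝔼 y, 𝔼 t, w x y t * 𝔼 z, b x y t z)
    (ha : 𝔼 x, 𝔼 y, 𝔼 t, 𝔼 z, a x y t z ≤ θ ^ 9) (hσ : 𝔼 x, σ x ≤ θ ^ 9) :
    ∃ x y t z, P x y t ∧ θ ≤ b x y t z ∧ 60 * θ * a x y t z + 20 * σ x < θ ^ 2 := by
  by_contra hcon
  push Not at hcon
  have key : ∀ x y t z, θ ^ 2 * (w x y t * b x y t z) ≤
      θ ^ 3 + (60 * θ * a x y t z + 20 * σ x) := by
    intro x y t z
    have h1 : 0 ≤ 60 * θ * a x y t z + 20 * σ x := by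
      have := ha0 x y t z
      have := hσ0 x
      positivity
    have h3 : 0 < θ ^ 3 := by positivity
    have h2 : 0 < θ ^ 2 := by positivity
    by_cases hP : P x y t
    · rw [hw, ind_pos hP, one_mul]
      by_cases hbθ : θ ≤ b x y t z
      · have := hcon x y t z hP hbθ
        have h4 : θ ^ 2 * b x y t z ≤ θ ^ 2 * 1 :=
          mul_le_mul_of_nonneg_left (hb x y t z) h2.le
        linarith
      · push Not at hbθ
        have h4 : θ ^ 2 * b x y t z ≤ θ ^ 2 * θ := mul_le_mul_of_nonneg_left hbθ.le h2.le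
        nlinarith
    · rw [hw, ind_neg hP, zero_mul, mul_zero]
      linarith
  have h1 : 𝔼 x, 𝔼 y, 𝔼 t, 𝔼 z, θ ^ 2 * (w x y t * b x y t z) ≤
      𝔼 x, 𝔼 y, 𝔼 t, 𝔼 z, (θ ^ 3 + (60 * θ * a x y t z + 20 * σ x)) :=
    ex_mono fun x => ex_mono fun y => ex_mono fun t => ex_mono fun z => key x y t z
  simp only [Finset.expect_add_distrib, ← Finset.mul_expect, Fintype.expect_const] at h1
  have h2 : θ ^ 2 * (2 * θ) ≤ θ ^ 2 * 𝔼 x, 𝔼 y, 𝔼 t, w x y t * 𝔼 z, b x y t z :=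
    mul_le_mul_of_nonneg_left hε (by positivity)
  have h3 : 60 * θ * 𝔼 x, 𝔼 y, 𝔼 t, 𝔼 z, a x y t z ≤ 60 * θ * θ ^ 9 :=
    mul_le_mul_of_nonneg_left ha (by positivity)
  have h6 : θ ^ 6 ≤ (1 / 2) ^ 6 := pow_le_pow_left₀ hθ.le hθ2 6
  have h3' : 0 < θ ^ 3 := by positivity
  have h9 : θ ^ 9 ≤ θ ^ 3 * (1 / 2) ^ 6 := by
    have : θ ^ 9 = θ ^ 3 * θ ^ 6 := by ring
    rw [this]
    exact mul_le_mul_of_nonneg_left h6 h3'.le
  have h10 : θ * θ ^ 9 ≤ 1 / 2 * θ ^ 9 := mul_le_mul_of_nonneg_right hθ2 (by positivity)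
  nlinarith

/-- The kernel in the first slot after fixing all slots but the first two. -/
def kk {p d : ℕ} [Fact p.Prime] {V : Type} [AddCommGroup V] [Module (ZMod p) V]
    (M : Ml p (d + 2) V) (z : Fin d → V) : Submodule (ZMod p) V where
  carrier := {v | ∀ u, cu M v (Fin.cons u z) = 0}
  add_mem' := by
    intro v v' hv hv' u
    rw [map_add, MultilinearMap.add_apply, hv u, hv' u, add_zero]
  zero_mem' := by
    intro u
    rw [map_zero, MultilinearMap.zero_apply]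
  smul_mem' := by
    intro c v hv u
    rw [map_smul, MultilinearMap.smul_apply, hv u, smul_zero]

end SAMPLEW

open SAMPLEW in
theorem stSAMPLEW : St_SAMPLEW := by
  intro R p d _ hBA hAtom hLab
  obtain ⟨r1, hr1A, hLab⟩ := hLab
  have hA9 : R.A fun ε => r1 ((ε / 2) ^ 9) := R.comp _ _ hr1A (R.pow 9)
  refine ⟨fun ε => (ε / 2) ^ 9 * (r1 ((ε / 2) ^ 9) * (r1 ((ε / 2) ^ 9) * r1 ((ε / 2) ^ 9))),
    R.mul _ _ (R.pow 9) (R.mul _ _ hA9 (R.mul _ _ hA9 hA9)), ?_⟩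
  intro G V _ _ _ _ _ _ φ A ε hε hle
  have hV := hBA V
  set θ : ℝ := ε / 2 with hθdef
  have hθ : 0 < θ := by positivity
  have hθ2 : θ ≤ 1 / 2 := by
    have : 𝔼 x, 𝔼 y, 𝔼 t, in4 A x y t * bias (dq φ x y t) ≤ 1 :=
      ex_le fun x => ex_le fun y => ex_le fun t =>
        mul_le_one₀ (ind_le_one _) (hV.nonneg _ _) (hV.le_one _ _)
    linarith
  have hγ : 0 < θ ^ 9 := by positivity
  have hγ1 : θ ^ 9 ≤ 1 := pow_le_one₀ hθ.le (by linarith)
  obtain ⟨hρ0, hρ1⟩ := R.pos r1 hr1A (θ ^ 9) hγ hγ1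
  choose lab s hs hcard hlab using fun v : V => hLab (fun x => cu (φ x) v) (θ ^ 9) hγ hγ1
  set ρ : ℝ := r1 (θ ^ 9) with hρ
  set β : ℝ := θ ^ 9 * (ρ * (ρ * ρ)) with hβ
  have hβ0 : 0 ≤ β := by positivity
  have hβρ : β ≤ ρ := by
    have h1 : ρ * ρ ≤ 1 := mul_le_one₀ hρ1 hρ0.le hρ1
    have h2 : ρ * (ρ * ρ) ≤ ρ * 1 := mul_le_mul_of_nonneg_left h1 hρ0.le
    have h3 : θ ^ 9 * (ρ * (ρ * ρ)) ≤ 1 * (ρ * (ρ * ρ)) :=
      mul_le_mul_of_nonneg_right hγ1 (by positivity)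
    linarith
  let B : V → G → Prop := fun v x => bias (cu (φ x) v - (lab v x).1 x - (lab v x).2) < ρ
  let S : V → V → Set G := fun v v' => {x | x ∈ A ∧ ¬ B v x ∧ ¬ B v' x ∧ ¬ B (v + v') x}
  let L3 := fun (v v' : V) (x : G) => (lab v x, lab v' x, lab (v + v') x)
  let E : G → V → V → Prop := fun x v v' =>
    x ∈ S v v' ∧ 𝔼 y, ind (y ∈ S v v' ∧ L3 v v' y = L3 v v' x) < β
  have hE : ∀ v v', 𝔼 x, ind (E x v v') ≤ θ ^ 9 := by
    intro v v'
    have h1 := hAtom (L3 v v') (s v ×ˢ s v' ×ˢ s (v + v')) (S v v') β hβ0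
      (fun x => Finset.mem_product.2 ⟨hs v x, Finset.mem_product.2 ⟨hs v' x, hs (v + v') x⟩⟩)
    refine h1.trans ?_
    rw [Finset.card_product, Finset.card_product]
    push_cast
    have e : ((s v).card : ℝ) * (((s v').card : ℝ) * ((s (v + v')).card : ℝ)) * β =
        (((s v).card : ℝ) * ρ) * ((((s v').card : ℝ) * ρ) *
          (((s (v + v')).card : ℝ) * ρ)) * θ ^ 9 := by
      rw [hβ]; ring
    rw [e]
    have n : ∀ v, 0 ≤ ((s v).card : ℝ) * ρ := fun v => by positivity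
    have h2 : (((s v).card : ℝ) * ρ) * ((((s v').card : ℝ) * ρ) *
          (((s (v + v')).card : ℝ) * ρ)) ≤ 1 :=
      mul_le_one₀ (hcard v) (mul_nonneg (n _) (n _)) (mul_le_one₀ (hcard v') (n _) (hcard _))
    calc _ ≤ 1 * θ ^ 9 := mul_le_mul_of_nonneg_right h2 hγ.le
      _ = θ ^ 9 := one_mul _
  have hcu : ∀ v x y t, dq (fun x => cu (φ x) v) x y t = cu (dq φ x y t) v := by
    intro v x y t
    ext h
    simp only [dq, MultilinearMap.add_apply, MultilinearMap.sub_apply, hV.cu_apply]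
  have hbv : ∀ (M : Ml p (d + 2) V) (v : V), bias (cu M v) = 𝔼 z, ind (v ∈ kk M z) :=
    fun M v => hV.eq_ind d (cu M v)
  have hbM : ∀ M : Ml p (d + 2) V, bias M = 𝔼 z, 𝔼 v, ind (v ∈ kk M z) := by
    intro M
    rw [hV.eq_cu, Finset.expect_comm]
    exact Finset.expect_congr rfl fun v _ => hbv M v
  obtain ⟨x, y, t, z, hP, hbθ, hF⟩ := pick4 (in4 A)
    (fun x y t z => 𝔼 v, ind (v ∈ kk (dq φ x y t) z))
    (fun x y t z => 𝔼 v, ind (B v x ∧ v ∈ kk (dq φ x y t) z))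
    (fun x => 𝔼 v, 𝔼 v', ind (E x v v')) θ hθ hθ2
    (fun x y t => x ∈ A ∧ x + t ∈ A ∧ y ∈ A ∧ y + t ∈ A) (fun _ _ _ => rfl)
    (fun x y t z => ex_le fun v => ind_le_one _)
    (fun x y t z => ex_nonneg fun v => ind_nonneg _)
    (fun x => ex_nonneg fun v => ex_nonneg fun v' => ind_nonneg _)
    (by simp only [← hbM]; rw [hθdef]; linarith)
    (by
      have e : 𝔼 x, 𝔼 y, 𝔼 t, 𝔼 z, 𝔼 v, ind (B v x ∧ v ∈ kk (dq φ x y t) z) =
          𝔼 v, 𝔼 x, 𝔼 y, 𝔼 t, ind (B v x) * bias (dq (fun x => cu (φ x) v) x y t) := by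
        rw [Finset.expect_comm (univ : Finset V)]
        refine Finset.expect_congr rfl fun x _ => ?_
        rw [Finset.expect_comm (univ : Finset V)]
        refine Finset.expect_congr rfl fun y _ => ?_
        rw [Finset.expect_comm (univ : Finset V)]
        refine Finset.expect_congr rfl fun t _ => ?_
        rw [Finset.expect_comm]
        refine Finset.expect_congr rfl fun v _ => ?_
        rw [hcu, hbv, Finset.mul_expect]
        exact Finset.expect_congr rfl fun z _ => ind_and _ _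
      rw [e]
      exact ex_le fun v => hlab v)
    (by
      have e : 𝔼 x, 𝔼 v, 𝔼 v', ind (E x v v') = 𝔼 v, 𝔼 v', 𝔼 x, ind (E x v v') := by
        rw [Finset.expect_comm (univ : Finset G)]
        refine Finset.expect_congr rfl fun v _ => ?_
        rw [Finset.expect_comm (univ : Finset G)]
      rw [e]
      exact ex_le fun v => ex_le fun v' => hE v v')
  refine ⟨kk (dq φ x y t) z, fun v => (lab v x).1, fun v => (lab v x).2, hbθ, ?_⟩
  refine (count (fun v => v ∈ kk (dq φ x y t) z)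
    (fun v => B v x ∧ v ∈ kk (dq φ x y t) z) (E x) _ ?_).trans ?_
  · rintro v v' ⟨hv, hv', hlt⟩
    refine ⟨hv, hv', ?_⟩
    by_cases b1 : B v x
    · exact Or.inl ⟨b1, hv⟩
    by_cases b2 : B v' x
    · exact Or.inr (Or.inl ⟨b2, hv'⟩)
    by_cases b3 : B (v + v') x
    · exact Or.inr (Or.inr (Or.inl ⟨b3, Submodule.add_mem _ hv hv'⟩))
    refine Or.inr (Or.inr (Or.inr ⟨⟨hP.1, b1, b2, b3⟩, lt_of_le_of_lt ?_ hlt⟩))
    refine ex_mono fun w => ind_mono ?_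
    rintro ⟨⟨hw, c1, c2, c3⟩, hL⟩
    have e1 : lab v w = lab v x := congrArg (fun q => q.1) hL
    have e2 : lab v' w = lab v' x := congrArg (fun q => q.2.1) hL
    have e3 : lab (v + v') w = lab (v + v') x := congrArg (fun q => q.2.2) hL
    refine ⟨hw, ?_, ?_, ?_⟩
    · beta_reduce; rw [← e1]; exact hβρ.trans (not_lt.1 c1)
    · beta_reduce; rw [← e2]; exact hβρ.trans (not_lt.1 c2)
    · beta_reduce; rw [← e3]; exact hβρ.trans (not_lt.1 c3)
  · set k := 𝔼 v, ind (v ∈ kk (dq φ x y t) z) with hkdef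
    set a := 𝔼 v, ind (B v x ∧ v ∈ kk (dq φ x y t) z) with hadef
    set σ := 𝔼 v, 𝔼 v', ind (E x v v') with hσdef
    have ha0 : 0 ≤ a := ex_nonneg fun v => ind_nonneg _
    have hσ0 : 0 ≤ σ := ex_nonneg fun v => ex_nonneg fun v' => ind_nonneg _
    have hbθ' : θ ≤ k := hbθ
    have hF' : 60 * θ * a + 20 * σ < θ ^ 2 := hF
    have ha1 : 60 * a ≤ θ := by
      have : θ * (60 * a) ≤ θ * θ := by nlinarith
      exact le_of_mul_le_mul_left this hθ
    have hk0 : 0 ≤ k := by linarith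
    have h1 : k * (60 * a) ≤ k * k := mul_le_mul_of_nonneg_left (by linarith) hk0
    have h2 : θ ^ 2 ≤ k ^ 2 := pow_le_pow_left₀ hθ.le hbθ' 2
    have h3 : 0 ≤ θ * a := mul_nonneg hθ.le ha0
    nlinarith

end Pool.Agent.Lib.UD
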