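import Pool.Agent.Lib.UD.Blue
import Pool.Agent.Lib.U4.STEP

/-! Block STEPC: the inductive step of the inverse theorem for a class of rates. -/

noncomputable section

open Finset
open scoped BigOperators ComplexConjugate

namespace Pool.Agent.Lib.UD

open Pool.Agent.Lib.MP_3a84e0_co Pool.Agent.Lib.U4

namespace STEPC

theorem pw (R : RC) {g : ℝ → ℝ} (h : R.A g) (n : ℕ) : R.A fun ε => g ε ^ n := by
  induction n with
  | zero => simpa using R.pow 0
  | succ n ih => simpa [pow_succ] using R.mul _ _ ih h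

end STEPC

open STEPC in
theorem stSTEPC : St_STEPC := by
  rintro R p _ hQ hR hS hI e he ⟨g1, r1, h1⟩ ⟨g2, r2, h2⟩
  have k0 : R.A fun δ => δ / 2 := by simpa using R.pow 1
  have k1 := R.comp _ _ r1 k0
  have k2 := pw R (R.mul _ _ k1 k0) (4 * 2 ^ (e + 1))
  have k3 := R.mul _ _ k1 (R.comp _ _ r2 k2)
  have k4 := pw R (R.mul _ _ (pw R k3 (2 ^ (e + 2))) k3) (2 ^ (e + 2))
  refine ⟨_, R.comp _ _ r1 k4, fun {V} _ _ _ f δ hδ hf hg => ?_⟩
  have d1 : δ ≤ 1 := hg.trans (gw_le_one (e + 2) hf)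
  have p1 := (R.pos _ k1 δ hδ d1).1
  have p2 := (R.pos _ k2 δ hδ d1).1
  have p3 := (R.pos _ k3 δ hδ d1).1
  have p4 := (R.pos _ k4 δ hδ d1).1
  have hg2 : 2 * (δ / 2) ≤ gw (e + 2) f := by linarith
  have u0 : 0 < δ / 2 := by linarith
  beta_reduce at p1 p2 p3 p4 ⊢
  generalize δ / 2 = u at *
  obtain ⟨A, hA⟩ : ∃ A : Set V, A = {h | u ≤ gw (e + 1) (md h f)} := ⟨_, rfl⟩
  have a1 : u ≤ 𝔼 h, ind (h ∈ A) :=
    hA ▸ STEP.dens u0.le (fun h => gw_le_one (e + 1) (md_le hf h)) hg2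
  have a2 : ∀ h, ∃ P ∈ (Van (e + 1 + 1) : Submodule (ZMod p) (V → ZMod p)), h ∈ A →
      g1 u ≤ ‖𝔼 x, f (x + h) * conj (f x) * ec (P x)‖ := fun h => by
    by_cases hh : h ∈ A
    · obtain ⟨ψ, b1, b2⟩ := h1 (md h f) u u0 (md_le hf h) (by rwa [hA] at hh)
      refine ⟨-ψ, neg_mem b1, fun _ => ?_⟩
      rw [← RCLike.norm_conj, conj_expect]
      refine b2.trans_eq (congrArg _ (expect_congr rfl fun x _ => ?_))
      simp only [md, Pi.neg_apply, ec_neg, map_mul, Complex.conj_conj]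
      ring
    · exact ⟨0, zero_mem _, fun h' => absurd h' hh⟩
  choose P hP a3 using a2
  have hg' : ∀ x, ‖conj (f x)‖ ≤ 1 := fun x => (RCLike.norm_conj _).trans_le (hf x)
  have a4 := hQ e f _ P hP A (g1 u * u) hf hg' (by positivity) (by
    refine (mul_le_mul_of_nonneg_left a1 p1.le).trans ?_
    rw [mul_expect]
    refine expect_le_expect fun h _ => ?_
    unfold ind
    split_ifs with hh
    · simpa using a3 h hh
    · simp)
  obtain ⟨T, B0, a5⟩ := h2 _ A _ p2 a4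
  obtain ⟨Θ, g', P', b1, b2, b3, b4⟩ := hR e (by omega) f _ P hP A _ _ T B0 hg' p1.le a3 a5
  have b5 := hS e (by omega) f g' Θ P' _ hf b2 b1 b3 p3.le b4
  obtain ⟨Q, c1, c2⟩ := hI e he f g' Θ P' _ b2 b1 b3 p3.le b4
  obtain ⟨ψ, c3, c4⟩ := h1 (fun x => f x * ec (Q x)) _ p4
    (fun x => by rw [norm_mul, norm_ec, mul_one]; exact hf x) (le_trans (by gcongr) c2)
  refine ⟨Q + ψ, add_mem c1 (Van_le_succ _ c3), c4.trans_eq ?_⟩
  simp only [Pi.add_apply, ec_add, mul_assoc]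

end Pool.Agent.Lib.UD
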