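import Pool.Agent.Lib.U4.All
import Pool.Agent.Lib.UD.POLY
import Pool.Agent.Lib.UD.STEPC
import Pool.Agent.Lib.UD.BI1
import Pool.Agent.Lib.UD.BI2
import Pool.Agent.Lib.UD.GCSW
import Pool.Agent.Lib.UD.LABW
import Pool.Agent.Lib.UD.SAMPLEW
import Pool.Agent.Lib.UD.BLRW
import Pool.Agent.Lib.UD.RMW

/-! Assembly: the inverse theorem for all Gowers norms follows from `ADc` (or from `RMc`). -/

namespace Pool.Agent.Lib.UD

open Pool.Agent.Lib.MP_3a84e0_co Pool.Agent.Lib.U4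

variable (R : RC) (p : ℕ) [Fact p.Prime]

theorem sampleW_of_rmc (d : ℕ) (h : RMc R p (d + 1)) : SampleW R p d :=
  stSAMPLEW R p d (stBI1 p) stLIN.1 (stLABW R p d (stBI1 p) (stGCSW p (stBI1 p)) h)

theorem rmc_succ (d : ℕ) (h : RMc R p (d + 1)) (hA : ADc R p (d + 2)) : RMc R p (d + 2) :=
  stRMW R p d (stBI1 p) (stBI2 p (stBI1 p)) (stLIN.2 p) (stBLRW R p (d + 1) (stBI1 p) hA)
    (sampleW_of_rmc R p d h)

theorem rmc_one (hp : p ≠ 2) : RMc R p 1 :=
  stPOLY.2.1 R p 1 ((stCONV p).1 (rm1 p hp))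

theorem rmc_of_adc (hp : p ≠ 2) (d : ℕ) (hA : ∀ j, j < d → ADc R p (j + 2)) : RMc R p (d + 1) := by
  induction d with
  | zero => exact rmc_one R p hp
  | succ d ih =>
    exact rmc_succ R p d (ih fun j hj => hA j (by omega)) (hA d (Nat.lt_succ_self d))

theorem invc_of_rmc (e : ℕ) (he : e + 1 < p) (hM : ∀ j, j < e → RMc R p (j + 1)) :
    INVc R p (e + 1) := by
  induction e with
  | zero => exact stPOLY.2.2.1 R p 1 (stINV1 p)
  | succ e ih =>
    exact stSTEPC R p (stQUAD p) (stREPL p (stML p)) (stSYMD p (stGW p) (stML p) (stSYM2 p))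
      (stINTEG p (stGW p) (stML p)) e he (ih (by omega) fun j hj => hM j (by omega))
      (hM e (Nat.lt_succ_self e))

theorem invc_of_adc (e : ℕ) (he : e + 1 < p) (hA : ∀ j, j + 1 < e → ADc R p (j + 2)) :
    INVc R p (e + 1) :=
  invc_of_rmc R p e he fun j hj =>
    rmc_of_adc R p (by omega) j fun i hi => hA i (by omega)

/-- `RM` in all degrees below `s` gives the polynomial inverse theorem. -/
theorem polyInverse_of_rm (s : ℕ) (h1 : 1 ≤ s) (hs : s < p) (hM : ∀ d, 1 ≤ d → d < s → RM p d) :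
    PolyInverse p s s := by
  obtain ⟨R, hR⟩ := stPOLY.1
  obtain ⟨e, rfl⟩ : ∃ e, s = e + 1 := ⟨s - 1, by omega⟩
  exact stFINAL p _ hs (stPOLY.2.2.2 R p _ hR (invc_of_rmc R p e hs fun j hj =>
    stPOLY.2.1 R p _ (hM _ (by omega) (by omega))))

/-- `ADc` with polynomial rates in all degrees below `s` gives the polynomial inverse theorem. -/
theorem polyInverse_of_adc (s : ℕ) (h1 : 1 ≤ s) (hs : s < p)
    (hA : ∀ R : RC, R.A = PolyA → ∀ d, 2 ≤ d → d < s → ADc R p d) : PolyInverse p s s := by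
  obtain ⟨R, hR⟩ := stPOLY.1
  obtain ⟨e, rfl⟩ : ∃ e, s = e + 1 := ⟨s - 1, by omega⟩
  exact stFINAL p _ hs (stPOLY.2.2.2 R p _ hR (invc_of_adc R p e hs fun j hj =>
    hA R hR _ (by omega) (by omega)))

/-- Stability with an explicit polynomial rate. -/
def AD (p d : ℕ) [Fact p.Prime] : Prop := ∃ C : ℕ, ∀ {G V : Type} [AddCommGroup G]
  [Fintype G] [Module (ZMod p) G] [AddCommGroup V] [Module (ZMod p) V] [Fintype V]
  (φ : G → Ml p d V) (β : ℝ), 0 < β → β ≤ 1 → (∀ x y, β ≤ bias (df φ x y)) →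
  ∃ T : G →+ Ml p d V, 3 / 4 ≤ Finset.univ.expect fun x => ind ((β / 2) ^ C ≤ bias (φ x - T x))

theorem adc_of_ad (d : ℕ) (h : AD p d) : ADc R p d := by
  obtain ⟨C, hC⟩ := h
  exact ⟨_, R.pow C, fun φ β h0 h1 h => hC φ β h0 h1 h⟩

/-- `AD` in all degrees below `s` gives the polynomial inverse theorem. -/
theorem polyInverse_of_ad (s : ℕ) (h1 : 1 ≤ s) (hs : s < p)
    (hA : ∀ d, 2 ≤ d → d < s → AD p d) : PolyInverse p s s :=
  polyInverse_of_adc p s h1 hs fun R _ d h2 hd => adc_of_ad R p d (hA d h2 hd)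

end Pool.Agent.Lib.UD
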