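import Pool.Agent.Lib.U4.All
import Pool.Agent.Lib.UD.POLY
import Pool.Agent.Lib.UD.STEPC
import Pool.Agent.Lib.UD.BI1
import Pool.Agent.Lib.UD.BI2
import Pool.Agent.Lib.UD.GCSW
import Pool.Agent.Lib.UD.LABW
import Pool.Agent.Lib.UD.SAMPLEW
import Pool.Agent.Lib.UD.BLRW
import Pool.Agent.Lib.UD.RMW

/-! Assembly: the inverse theorem for all Gowers norms from `ADc`, or from `RMc`. -/

namespace Pool.Agent.Lib.UD

open Pool.Agent.Lib.MP_3a84e0_co Pool.Agent.Lib.U4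

variable (R : RC) (p : ℕ) [Fact p.Prime]

theorem ba : BA p := stBI1 p

theorem bib : BiB p := stBI2 p (ba p)

theorem sampleW (d : ℕ) (h : RMc R p (d + 1)) : SampleW R p d :=
  stSAMPLEW R p d (ba p) stLIN.1 (stLABW R p d (ba p) (stGCSW p (ba p)) h)

theorem rmc_succ (d : ℕ) (h : RMc R p (d + 1)) (hA : ADc R p (d + 2)) : RMc R p (d + 2) :=
  stRMW R p d (ba p) (bib p) (stLIN.2 p) (stBLRW R p (d + 1) (ba p) hA) (sampleW R p d h)

theorem rmc_one (hp : p ≠ 2) : RMc R p 1 := stPOLY.2.1 R p 1 ((stCONV p).1 (rm1 p hp))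

theorem rmc_all (hp : p ≠ 2) (hA : ∀ d, ADc R p (d + 2)) : ∀ d, RMc R p (d + 1)
  | 0 => rmc_one R p hp
  | d + 1 => rmc_succ R p d (rmc_all hp hA d) (hA d)

theorem invc_all (hR : ∀ d, d + 2 < p → RMc R p (d + 1)) : ∀ k, k + 1 < p → INVc R p (k + 1)
  | 0, _ => stPOLY.2.2.1 R p 1 (stINV1 p)
  | k + 1, hk => stSTEPC R p (stQUAD p) (stREPL p (stML p))
      (stSYMD p (stGW p) (stML p) (stSYM2 p)) (stINTEG p (stGW p) (stML p)) k hk
      (invc_all hR k (by omega)) (hR k hk)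

/-- The polynomial inverse theorem from `RMc` with polynomial rates. -/
theorem polyInverse_of_rmc (hP : R.A = PolyA) (hR : ∀ d, d + 2 < p → RMc R p (d + 1))
    (s : ℕ) (hs : 1 ≤ s) (hp : s < p) : PolyInverse p s s := by
  obtain ⟨k, rfl⟩ : ∃ k, s = k + 1 := ⟨s - 1, by omega⟩
  exact stFINAL p (k + 1) hp (stPOLY.2.2.2 R p (k + 1) hP (invc_all R p hR k hp))

/-- The polynomial inverse theorem from `ADc` with polynomial rates. -/
theorem polyInverse_of_adc (hA : ∀ R : RC, R.A = PolyA → ∀ d, ADc R p (d + 2))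
    (s : ℕ) (hs : 1 ≤ s) (hp : s < p) : PolyInverse p s s := by
  obtain ⟨R, hR⟩ := stPOLY.1
  exact polyInverse_of_rmc R p hR (fun d hd => rmc_all R p (by omega) (hA R hR) d) s hs hp

end Pool.Agent.Lib.UD
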